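import Pool.Agent.Lib_helper76.UEG.BE

/-!
# The invariants of a curve with a point; discriminant; order eight
-/

set_option autoImplicit false
set_option linter.unusedSectionVars false

namespace Pool.Agent.UEG

open WeierstrassCurve.Affine
open TN (Wt Orb)
open MK4 (crf)

variable {k : Type*} [Field k] {W W' : WeierstrassCurve.Affine k} {u r s t : k}

/-- a change of variables in the sense of Mathlib -/
lemma Chg.eq_smul (h : Chg W W' u r s t) :
    (⟨Units.mk0 u h.hu, r, s, t⟩ : WeierstrassCurve.VariableChange k) • W = W' := by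
  have hu := h.hu
  rw [WeierstrassCurve.variableChange_def]
  have hi : (((Units.mk0 u hu)⁻¹ : kˣ) : k) = u⁻¹ := by
    rw [Units.val_inv_eq_inv_val]; rfl
  ext
  · show ((Units.mk0 u hu)⁻¹ : kˣ) * (W.a₁ + 2 * s) = W'.a₁
    rw [hi, ← h.h1]; field_simp
  · show ((Units.mk0 u hu)⁻¹ : kˣ) ^ 2 * (W.a₂ - s * W.a₁ + 3 * r - s ^ 2) = W'.a₂
    rw [hi, ← h.h2]; field_simp
  · show ((Units.mk0 u hu)⁻¹ : kˣ) ^ 3 * (W.a₃ + r * W.a₁ + 2 * t) = W'.a₃
    rw [hi, ← h.h3]; field_simp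
  · show ((Units.mk0 u hu)⁻¹ : kˣ) ^ 4 * (W.a₄ - s * W.a₃ + 2 * r * W.a₂ - (t + r * s) * W.a₁ +
      3 * r ^ 2 - 2 * s * t) = W'.a₄
    rw [hi, ← h.h4]; field_simp
  · show ((Units.mk0 u hu)⁻¹ : kˣ) ^ 6 * (W.a₆ + r * W.a₄ + r ^ 2 * W.a₂ + r ^ 3 - t * W.a₃ -
      t ^ 2 - r * t * W.a₁) = W'.a₆
    rw [hi, ← h.h6]; field_simp

/-- the discriminant -/
lemma Chg.delta (h : Chg W W' u r s t) : W.Δ = u ^ 12 * W'.Δ := by
  have hu := h.hu
  rw [← h.eq_smul, WeierstrassCurve.variableChange_Δ]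
  have hi : (((Units.mk0 u hu)⁻¹ : kˣ) : k) = u⁻¹ := by
    rw [Units.val_inv_eq_inv_val]; rfl
  show W.Δ = u ^ 12 * ((((Units.mk0 u hu)⁻¹ : kˣ) : k) ^ 12 * W.Δ)
  rw [hi]
  field_simp

/-- conversely -/
lemma chg_of_smul (C : WeierstrassCurve.VariableChange k) (W : WeierstrassCurve.Affine k) :
    Chg W (C • W : WeierstrassCurve k) C.u C.r C.s C.t := by
  have hu : (C.u : k) ≠ 0 := C.u.ne_zero
  have hi : ((C.u⁻¹ : kˣ) : k) = (C.u : k)⁻¹ := Units.val_inv_eq_inv_val _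
  refine ⟨hu, ?_, ?_, ?_, ?_, ?_⟩
  · rw [WeierstrassCurve.variableChange_a₁, hi]; field_simp
  · rw [WeierstrassCurve.variableChange_a₂, hi]; field_simp
  · rw [WeierstrassCurve.variableChange_a₃, hi]; field_simp
  · rw [WeierstrassCurve.variableChange_a₄, hi]; field_simp
  · rw [WeierstrassCurve.variableChange_a₆, hi]; field_simp

/-- **the numbers `b`, `c` are invariants of the curve and the point** -/
theorem bc_unique {b c b' c' u' s' p₁ p₂ : k} (hb : b ≠ 0) (hb' : b' ≠ 0)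
    (h : Chg W (Wt b c) u p₁ s p₂) (h' : Chg W (Wt b' c') u' p₁ s' p₂) :
    b = b' ∧ c = c' ∧ u = u' ∧ s = s' := by
  have hu := h.hu
  have hu' := h'.hu
  have e1 : u * (1 - c) = W.a₁ + 2 * s := h.h1
  have e2 : u ^ 2 * (-b) = W.a₂ - s * W.a₁ + 3 * p₁ - s ^ 2 := h.h2
  have e3 : u ^ 3 * (-b) = W.a₃ + p₁ * W.a₁ + 2 * p₂ := h.h3
  have e4 : u ^ 4 * 0 = W.a₄ - s * W.a₃ + 2 * p₁ * W.a₂ - (p₂ + p₁ * s) * W.a₁ + 3 * p₁ ^ 2 -
    2 * s * p₂ := h.h4
  have f1 : u' * (1 - c') = W.a₁ + 2 * s' := h'.h1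
  have f2 : u' ^ 2 * (-b') = W.a₂ - s' * W.a₁ + 3 * p₁ - s' ^ 2 := h'.h2
  have f3 : u' ^ 3 * (-b') = W.a₃ + p₁ * W.a₁ + 2 * p₂ := h'.h3
  have f4 : u' ^ 4 * 0 = W.a₄ - s' * W.a₃ + 2 * p₁ * W.a₂ - (p₂ + p₁ * s') * W.a₁ + 3 * p₁ ^ 2 -
    2 * s' * p₂ := h'.h4
  have hs : s = s' := by
    have h1 : (u ^ 3 * (-b)) * (s - s') = 0 := by
      rw [e3]; linear_combination e4 - f4
    have h2 := (mul_eq_zero.mp h1).resolve_left
      (mul_ne_zero (pow_ne_zero 3 hu) (neg_ne_zero.mpr hb))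
    linear_combination h2
  subst hs
  have h2 : u ^ 2 * b = u' ^ 2 * b' := by linear_combination f2 - e2
  have h3 : u ^ 3 * b = u' ^ 3 * b' := by linear_combination f3 - e3
  have huu : u = u' := by
    have h4 : (u' ^ 2 * b') * (u - u') = 0 := by linear_combination h3 - u * h2
    have h5 := (mul_eq_zero.mp h4).resolve_left (mul_ne_zero (pow_ne_zero 2 hu') hb')
    linear_combination h5
  subst huu
  refine ⟨mul_left_cancel₀ (pow_ne_zero 2 hu) h2, ?_, rfl, rfl⟩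
  have h4 : u * (1 - c) = u * (1 - c') := by rw [e1, f1]
  have h5 := mul_left_cancel₀ hu h4
  linear_combination -h5

section eight

variable [DecidableEq k] {b c : k}

/-- `c = 0` only for a point of order four -/
lemma four_of_c (hb : b ≠ 0) : (4 : ℕ) • P0 (0 : k) hb = 0 := by
  obtain ⟨h3, e3⟩ := three_P0 (c := (0 : k)) hb
  have e2 : (3 : ℕ) • P0 0 hb = -P0 0 hb := by
    rw [e3]
    show _ = -(Point.some 0 0 (ns0 hb))
    rw [Point.neg_some]
    simp only [Point.some.injEq, true_and]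
    rw [negY_wt]; ring
  rw [show (4 : ℕ) = 3 + 1 by norm_num, add_nsmul, one_nsmul, e2]
  exact neg_add_cancel _

/-- order eight -/
lemma bc_of_eight (hb : b ≠ 0) (h : addOrderOf (P0 c hb) = 8) :
    ∃ d : k, d ≠ 0 ∧ b = (2 * d - 1) * (d - 1) ∧ b = c * d ∧ c ≠ 0 := by
  have hc : c ≠ 0 := by
    rintro rfl
    have := addOrderOf_le_of_nsmul_eq_zero (by norm_num : 0 < 4) (four_of_c hb)
    omega
  obtain ⟨d, hd⟩ : ∃ d : k, b = d * c := ⟨b / c, by field_simp⟩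
  have hd0 : d ≠ 0 := by
    rintro rfl
    apply hb
    rw [hd, zero_mul]
  obtain ⟨h4, e4⟩ := four_P0 hb hc hd
  have h8 : (8 : ℕ) • P0 c hb = 0 := by rw [← h]; exact addOrderOf_nsmul_eq_zero _
  have e : (4 : ℕ) • P0 c hb = -((4 : ℕ) • P0 c hb) := by
    rw [eq_neg_iff_add_eq_zero, ← add_nsmul]; exact h8
  rw [e4, Point.neg_some] at e
  simp only [Point.some.injEq, true_and] at e
  rw [negY_wt, hd] at e
  refine ⟨d, hd0, ?_, by rw [hd]; ring, hc⟩
  have h1 : d * (d * c - (2 * d - 1) * (d - 1)) = 0 := by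
    linear_combination e
  have h2 := (mul_eq_zero.mp h1).resolve_left hd0
  rw [hd]
  linear_combination h2

end eight

end Pool.Agent.UEG
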