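import Pool.Agent.Lib_helper76.UEG.TP

/-!
# Points of a given order and the Tate normal form
-/

set_option autoImplicit false
set_option linter.unusedSectionVars false

namespace Pool.Agent.UEG

open WeierstrassCurve.Affine Polynomial
open TN (Wt)

variable {k : Type*} [Field k] [DecidableEq k] {W : WeierstrassCurve.Affine k} {b c : k}

section

variable {u s p₁ p₂ : k}

lemma hom_P0 (hb : b ≠ 0) (h : Chg W (Wt b c) u p₁ s p₂) (hP : W.Nonsingular p₁ p₂) :
    h.hom (P0 c hb) = .some p₁ p₂ hP := by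
  unfold P0
  rw [h.hom_some]
  simp only [Point.some.injEq]
  exact ⟨by ring, by ring⟩

lemma comap_P0 (hb : b ≠ 0) (h : Chg W (Wt b c) u p₁ s p₂) (hP : W.Nonsingular p₁ p₂) :
    (AddSubgroup.zmultiples (Point.some p₁ p₂ hP)).comap h.hom =
      AddSubgroup.zmultiples (P0 c hb) := by
  rw [← hom_P0 hb h hP, ← AddMonoidHom.map_zmultiples,
    AddSubgroup.comap_map_eq_self_of_injective h.hom_inj]

lemma order_P0 (hb : b ≠ 0) (h : Chg W (Wt b c) u p₁ s p₂) (hP : W.Nonsingular p₁ p₂) :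
    addOrderOf (P0 c hb) = addOrderOf (Point.some p₁ p₂ hP) := by
  rw [← hom_P0 hb h hP]
  exact (addOrderOf_injective h.hom h.hom_inj _).symm

end

/-- **the Tate normal form for a point of order at least four** -/
theorem tate_of_order {p₁ p₂ : k} (hP : W.Nonsingular p₁ p₂) {N : ℕ} (hN : 4 ≤ N)
    (h : addOrderOf (Point.some p₁ p₂ hP) = N) :
    ∃ (b c u s : k) (hb : b ≠ 0), ∃ hC : Chg W (Wt b c) u p₁ s p₂,
      addOrderOf (P0 c hb) = N ∧
      (AddSubgroup.zmultiples (Point.some p₁ p₂ hP)).comap hC.hom =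
        AddSubgroup.zmultiples (P0 c hb) := by
  have h2 : (2 : ℕ) • Point.some p₁ p₂ hP ≠ 0 := by
    intro h'
    have := addOrderOf_le_of_nsmul_eq_zero (by norm_num : 0 < 2) h'
    omega
  have h3 : (3 : ℕ) • Point.some p₁ p₂ hP ≠ 0 := by
    intro h'
    have := addOrderOf_le_of_nsmul_eq_zero (by norm_num : 0 < 3) h'
    omega
  obtain ⟨b, c, u, s, hb, hC⟩ := tate hP h2 h3
  exact ⟨b, c, u, s, hb, hC, (order_P0 hb hC hP).trans h, comap_P0 hb hC hP⟩

/-! ### the line through two points in the function field -/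

section line

variable {F : Type*} [Field F] [Algebra k F] {x y : F}

lemma line_val (h : Gen W x y) {a b a' b' m : k} (hm : m * (a - a') = b - b') (ha : a ≠ a') :
    hR h (yR - iP (ln W a a' b b')) =
      y - (algebraMap k F m * (x - algebraMap k F a) + algebraMap k F b) := by
  have hs : W.slope a a' b b' = m := by
    rw [slope_of_X_ne ha, div_eq_iff (sub_ne_zero.mpr ha), hm]
  unfold ln linePolynomial
  rw [map_sub, hR_y, hR_iP, hs]
  simp only [eval₂_add, eval₂_mul, eval₂_sub, eval₂_C, eval₂_X]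

lemma line_val' (h : Gen W x y) {a b m : k}
    (hm : m * (b - W.negY a b) = 3 * a ^ 2 + 2 * W.a₂ * a + W.a₄ - W.a₁ * b)
    (hb : b ≠ W.negY a b) :
    hR h (yR - iP (ln W a a b b)) =
      y - (algebraMap k F m * (x - algebraMap k F a) + algebraMap k F b) := by
  have hs : W.slope a a b b = m := by
    rw [slope_of_Y_ne rfl hb, div_eq_iff (sub_ne_zero.mpr hb), hm]
  unfold ln linePolynomial
  rw [map_sub, hR_y, hR_iP, hs]
  simp only [eval₂_add, eval₂_mul, eval₂_sub, eval₂_C, eval₂_X]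

end line

/-- the multiples of a point of order `N` -/
lemma mem_zm {G : Type*} [AddGroup G] {P Q : G} {N : ℕ} (hN : 0 < N) (hP : N • P = 0)
    (hQ : Q ∈ AddSubgroup.zmultiples P) : ∃ n : ℕ, n < N ∧ n • P = Q := by
  obtain ⟨m, rfl⟩ := AddSubgroup.mem_zmultiples_iff.mp hQ
  refine ⟨(m % N).toNat, ?_, ?_⟩
  · have h1 := Int.emod_lt_of_pos m (by exact_mod_cast hN : (0 : ℤ) < N)
    have h2 := Int.emod_nonneg m (by exact_mod_cast hN.ne' : (N : ℤ) ≠ 0)
    omega
  · have h2 := Int.emod_nonneg m (by exact_mod_cast hN.ne' : (N : ℤ) ≠ 0)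
    rw [← natCast_zsmul, Int.toNat_of_nonneg h2]
    conv_rhs => rw [← Int.emod_add_mul_ediv m N]
    rw [add_zsmul, mul_comm, mul_zsmul, natCast_zsmul, hP, zsmul_zero, add_zero]

end Pool.Agent.UEG
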