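import Pool.Agent.Lib_helper76.UEG.TQ
import Pool.Agent.Lib_helper2.K4.DefsC

/-!
# Base change to the function field, the generic point in the group law
-/

set_option autoImplicit false
set_option linter.unusedSectionVars false

namespace Pool.Agent.UEG

open WeierstrassCurve.Affine
open TN (Wt)
open MK4 (dx crf)

variable {k : Type*} [Field k] {F : Type*} [Field F] [Algebra k F]

/-- the curve over `F` -/
abbrev WF (F : Type*) [Field F] (W : WeierstrassCurve.Affine k) [Algebra k F] :
    WeierstrassCurve.Affine F := WeierstrassCurve.Affine.map W (algebraMap k F)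

lemma inj (k F : Type*) [Field k] [Field F] [Algebra k F] :
    Function.Injective (algebraMap k F) := (algebraMap k F).injective

section bc

variable [DecidableEq k] [DecidableEq F] (F) (W : WeierstrassCurve.Affine k)

/-- the base change of the points -/
def bcf : W.Point → (WF F W).Point
  | 0 => 0
  | .some _ _ h => .some _ _ ((WeierstrassCurve.Affine.map_nonsingular W (inj k F) _ _).mpr h)

/-- the base change of the points -/
def bc : W.Point →+ (WF F W).Point where
  toFun := bcf F W
  map_zero' := rfl
  map_add' := by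
    rintro (_ | ⟨x₁, y₁, h₁⟩) (_ | ⟨x₂, y₂, h₂⟩)
    · rfl
    · rfl
    · rfl
    · by_cases hxy : x₁ = x₂ ∧ y₁ = W.negY x₂ y₂
      · rw [Point.add_of_Y_eq hxy.1 hxy.2]
        show (0 : (WF F W).Point) = Point.some _ _ _ + Point.some _ _ _
        rw [Point.add_of_Y_eq (congrArg _ hxy.1) (by rw [hxy.2, WeierstrassCurve.Affine.map_negY])]
      · have hxy' : ¬(algebraMap k F x₁ = algebraMap k F x₂ ∧ algebraMap k F y₁ =
            (WF F W).negY (algebraMap k F x₂) (algebraMap k F y₂)) := by
          rintro ⟨h3, h4⟩
          apply hxy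
          rw [WeierstrassCurve.Affine.map_negY] at h4
          exact ⟨inj k F h3, inj k F h4⟩
        rw [Point.add_some hxy]
        show Point.some _ _ _ = Point.some (algebraMap k F x₁) (algebraMap k F y₁) _ +
          Point.some (algebraMap k F x₂) (algebraMap k F y₂) _
        rw [Point.add_some hxy']
        simp only [Point.some.injEq]
        rw [WeierstrassCurve.Affine.map_slope, WeierstrassCurve.Affine.map_addX,
          WeierstrassCurve.Affine.map_addY]
        exact ⟨rfl, rfl⟩

variable {F W}

lemma bc_some {x y : k} (h : W.Nonsingular x y) : bc F W (.some x y h) =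
    .some (algebraMap k F x) (algebraMap k F y)
      ((WeierstrassCurve.Affine.map_nonsingular W (inj k F) _ _).mpr h) := rfl

lemma bc_inj : Function.Injective (bc F W) := by
  rw [injective_iff_map_eq_zero]
  rintro (_ | ⟨x₁, y₁, h₁⟩) h0
  · rfl
  · rw [bc_some] at h0
    exact absurd h0 (Point.some_ne_zero _)

end bc

/-- change of variables over `F` -/
lemma Chg.toF {W W' : WeierstrassCurve.Affine k} {u r s t : k} (h : Chg W W' u r s t) :
    Chg (WF F W) (WF F W') (algebraMap k F u) (algebraMap k F r) (algebraMap k F s)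
      (algebraMap k F t) := by
  have h1 := congrArg (algebraMap k F) h.h1
  have h2 := congrArg (algebraMap k F) h.h2
  have h3 := congrArg (algebraMap k F) h.h3
  have h4 := congrArg (algebraMap k F) h.h4
  have h6 := congrArg (algebraMap k F) h.h6
  simp only [map_mul, map_add, map_sub, map_pow, map_ofNat] at h1 h2 h3 h4 h6
  exact ⟨(_root_.map_ne_zero _).mpr h.hu, h1, h2, h3, h4, h6⟩

/-- the generic point is nonsingular -/
lemma Gen.ns [CharZero k] {W : WeierstrassCurve.Affine k} {X Y : F} (h : Gen W X Y) :
    (WF F W).Nonsingular X Y := by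
  rw [nonsingular_iff']
  refine ⟨?_, Or.inr ?_⟩
  · rw [equation_iff]
    exact h.eq
  · intro h0
    have h1 := h.ind (p := Polynomial.C W.a₁ * Polynomial.X + Polynomial.C W.a₃)
      (q := Polynomial.C 2) (by
        simp only [Polynomial.eval₂_add, Polynomial.eval₂_mul, Polynomial.eval₂_C,
          Polynomial.eval₂_X, Polynomial.eval₂_ofNat, map_ofNat]
        have e : 2 * Y + algebraMap k F W.a₁ * X + algebraMap k F W.a₃ = 0 := h0
        linear_combination e)
    have h2 := Polynomial.C_eq_zero.mp h1.2
    exact two_ne_zero h2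

section next

variable [DecidableEq k] [DecidableEq F] {b c : k} {x y : F}

lemma ns0F (hb : b ≠ 0) : (WF F (Wt b c)).Nonsingular (algebraMap k F 0) (algebraMap k F 0) :=
  (WeierstrassCurve.Affine.map_nonsingular (Wt b c) (inj k F) 0 0).mpr (ns0 hb)

/-- **the translation by `(0,0)`** -/
theorem add_P0 (hb : b ≠ 0) (hx : x ≠ 0) (h : (WF F (Wt b c)).Nonsingular x y) :
    ∃ h', Point.some x y h + bc F (Wt b c) (P0 c hb) = Point.some (algebraMap k F b * y / x ^ 2)
      (algebraMap k F b ^ 2 * (x ^ 2 - y) / x ^ 3) h' := by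
  have a1 : (WF F (Wt b c)).a₁ = 1 - algebraMap k F c := by
    show algebraMap k F (1 - c) = _
    rw [map_sub, map_one]
  have a2 : (WF F (Wt b c)).a₂ = -algebraMap k F b := map_neg _ _
  have a3 : (WF F (Wt b c)).a₃ = -algebraMap k F b := map_neg _ _
  have a4 : (WF F (Wt b c)).a₄ = 0 := map_zero _
  have a6 : (WF F (Wt b c)).a₆ = 0 := map_zero _
  have he := (equation_iff x y).mp h.1
  rw [a1, a2, a3, a4, a6] at he
  have hB : algebraMap k F b ≠ 0 := (_root_.map_ne_zero _).mpr hb
  have z0 : algebraMap k F 0 = 0 := map_zero _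
  have hxy : ¬(x = algebraMap k F 0 ∧ y = (WF F (Wt b c)).negY (algebraMap k F 0)
      (algebraMap k F 0)) := by
    rw [z0]
    exact fun h' => hx h'.1
  have hs : (WF F (Wt b c)).slope x (algebraMap k F 0) y (algebraMap k F 0) = y / x := by
    rw [z0, slope_of_X_ne hx, sub_zero, sub_zero]
  have e1 : (WF F (Wt b c)).addX x (algebraMap k F 0)
      ((WF F (Wt b c)).slope x (algebraMap k F 0) y (algebraMap k F 0)) =
      algebraMap k F b * y / x ^ 2 := by
    rw [hs]
    unfold WeierstrassCurve.Affine.addX
    rw [a1, a2, z0]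
    field_simp
    linear_combination he
  have e2 : (WF F (Wt b c)).addY x (algebraMap k F 0) y
      ((WF F (Wt b c)).slope x (algebraMap k F 0) y (algebraMap k F 0)) =
      algebraMap k F b ^ 2 * (x ^ 2 - y) / x ^ 3 := by
    unfold WeierstrassCurve.Affine.addY WeierstrassCurve.Affine.negAddY
    rw [e1, hs]
    unfold WeierstrassCurve.Affine.negY
    rw [a1, a3]
    field_simp
    linear_combination (-algebraMap k F b) * he
  have hns := nonsingular_add h (ns0F (F := F) (c := c) hb) hxy
  rw [e1, e2] at hns
  refine ⟨hns, ?_⟩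
  show Point.some x y h + Point.some (algebraMap k F 0) (algebraMap k F 0) (ns0F hb) = _
  rw [Point.add_some hxy]
  simp only [Point.some.injEq]
  exact ⟨e1, e2⟩

end next

end Pool.Agent.UEG
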