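import Pool.Agent.Lib_helper76.UEG.TQ

/-!
# Functions supported on a finite subgroup of the Tate normal form, from a table of lines
-/

set_option autoImplicit false
set_option linter.unusedSectionVars false

namespace Pool.Agent.UEG

open WeierstrassCurve.Affine Polynomial
open TN (Wt)

section mon

variable {k : Type*} [Field k] {F : Type*} [Field F] [Algebra k F] {r : ℕ} {u : Fin r → F}

variable (k) in
/-- products of constants and powers of the `u j` -/
def IsMon (u : Fin r → F) (f : F) : Prop :=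
  ∃ (d : k) (n : Fin r → ℤ), d ≠ 0 ∧ f = algebraMap k F d * ∏ j, u j ^ n j

lemma IsMon.mul (hu : ∀ j, u j ≠ 0) {f g : F} (hf : IsMon k u f) (hg : IsMon k u g) :
    IsMon k u (f * g) := by
  obtain ⟨d, n, hd, rfl⟩ := hf
  obtain ⟨d', n', hd', rfl⟩ := hg
  refine ⟨d * d', n + n', mul_ne_zero hd hd', ?_⟩
  have e : (∏ j, u j ^ (n + n') j) = (∏ j, u j ^ n j) * ∏ j, u j ^ n' j := by
    rw [← Finset.prod_mul_distrib]
    exact Finset.prod_congr rfl fun j _ => zpow_add₀ (hu j) _ _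
  rw [e, map_mul]
  ring

lemma IsMon.inv {f : F} (hf : IsMon k u f) : IsMon k u f⁻¹ := by
  obtain ⟨d, n, hd, rfl⟩ := hf
  refine ⟨d⁻¹, -n, inv_ne_zero hd, ?_⟩
  have e : (∏ j, u j ^ (-n) j) = (∏ j, u j ^ n j)⁻¹ := by
    rw [← Finset.prod_inv_distrib]
    exact Finset.prod_congr rfl fun j _ => by rw [Pi.neg_apply, zpow_neg]
  rw [e, map_inv₀, mul_inv]

lemma isMon_c {c : k} (hc : c ≠ 0) : IsMon k u (algebraMap k F c) :=
  ⟨c, 0, hc, by simp⟩

lemma isMon_u (j : Fin r) : IsMon k u (u j) := by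
  refine ⟨1, Pi.single j 1, one_ne_zero, ?_⟩
  rw [map_one, one_mul, Finset.prod_eq_single j]
  · rw [Pi.single_eq_same, zpow_one]
  · intro i _ hi
    rw [Pi.single_eq_of_ne hi, zpow_zero]
  · intro h
    exact absurd (Finset.mem_univ j) h

lemma IsMon.ne (hu : ∀ j, u j ≠ 0) {f : F} (hf : IsMon k u f) : f ≠ 0 := by
  obtain ⟨d, n, hd, rfl⟩ := hf
  exact mul_ne_zero ((_root_.map_ne_zero _).mpr hd)
    (Finset.prod_ne_zero_iff.mpr fun j _ => zpow_ne_zero _ (hu j))

lemma zpow_of {P : F → Prop} (h1 : P 1) (hm : ∀ f g, P f → P g → P (f * g))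
    (hi : ∀ f, P f → P f⁻¹) {f : F} (hf : P f) (n : ℤ) : P (f ^ n) := by
  have h2 : ∀ m : ℕ, P (f ^ m) := by
    intro m
    induction m with
    | zero => rw [pow_zero]; exact h1
    | succ m ih => rw [pow_succ]; exact hm _ _ ih hf
  obtain ⟨m, rfl | rfl⟩ := Int.eq_nat_or_neg n
  · rw [zpow_natCast]; exact h2 m
  · rw [zpow_neg, zpow_natCast]; exact hi _ (h2 m)

lemma IsMon.induct {P : F → Prop} (hc : ∀ c : k, c ≠ 0 → P (algebraMap k F c))
    (hm : ∀ f g, P f → P g → P (f * g)) (hi : ∀ f, P f → P f⁻¹) (hu : ∀ j, P (u j)) {f : F}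
    (hf : IsMon k u f) : P f := by
  obtain ⟨d, n, hd, rfl⟩ := hf
  have h1 : P 1 := by
    have := hc 1 one_ne_zero
    rwa [map_one] at this
  refine hm _ _ (hc d hd) ?_
  induction (Finset.univ : Finset (Fin r)) using Finset.induction_on with
  | empty => simpa using h1
  | insert i s hi' ih =>
    rw [Finset.prod_insert hi']
    exact hm _ _ (zpow_of h1 hm hi (hu i) _) ih

end mon

variable {k : Type*} [Field k] {F : Type*} [Field F] [Algebra k F] {x y : F} {b c : k}

/-- the line `y = s x + e` is the line through the two points, or the tangent -/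
def LineOK (b c x₁ y₁ x₂ y₂ s e : k) : Prop :=
  y₁ = s * x₁ + e ∧ (x₁ ≠ x₂ ∧ s * (x₁ - x₂) = y₁ - y₂ ∨
    x₁ = x₂ ∧ y₁ = y₂ ∧ 2 * y₁ + (1 - c) * x₁ - b ≠ 0 ∧
      s * (2 * y₁ + (1 - c) * x₁ - b) = 3 * x₁ ^ 2 - 2 * b * x₁ - (1 - c) * y₁)

lemma LineOK.symm {x₁ y₁ x₂ y₂ s e : k} (h : LineOK b c x₁ y₁ x₂ y₂ s e) :
    LineOK b c x₂ y₂ x₁ y₁ s e := by
  obtain ⟨h1, ⟨h2, h3⟩ | ⟨rfl, rfl, h2⟩⟩ := h
  · exact ⟨by linear_combination h1 + h3, Or.inl ⟨Ne.symm h2, by linear_combination -h3⟩⟩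
  · exact ⟨h1, Or.inr ⟨rfl, rfl, h2⟩⟩

variable [DecidableEq k]

/-- **the functions supported on a subgroup, from a table of lines** -/
theorem good_tab {H : AddSubgroup (Wt b c).Point} (h : Gen (Wt b c) x y) {U : F → Prop}
    (hc : ∀ a : k, a ≠ 0 → U (algebraMap k F a)) (hm : ∀ f g, U f → U g → U (f * g))
    (hi : ∀ f, U f → U f⁻¹) {m : ℕ} (px py : Fin m → k)
    (hmem : ∀ a a', inH H a a' → ∃ i, a = px i ∧ a' = py i)
    (hx : ∀ i, U (x - algebraMap k F (px i)))
    (hl : ∀ i j, i ≤ j → (px i = px j ∧ py i = -py j - (1 - c) * px j + b) ∨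
      ∃ s e : k, LineOK b c (px i) (py i) (px j) (py j) s e ∧
        U (y - (algebraMap k F s * x + algebraMap k F e))) : Good H (hR h) U := by
  have a1 : (Wt b c).a₁ = 1 - c := rfl
  have a2 : (Wt b c).a₂ = -b := rfl
  have a4 : (Wt b c).a₄ = 0 := rfl
  have hl' : ∀ i j, (px i = px j ∧ py i = -py j - (1 - c) * px j + b) ∨
      ∃ s e : k, LineOK b c (px i) (py i) (px j) (py j) s e ∧
        U (y - (algebraMap k F s * x + algebraMap k F e)) := by
    intro i j
    rcases le_total i j with hij | hij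
    · exact hl i j hij
    · rcases hl j i hij with ⟨h1, h2⟩ | ⟨s, e, h1, h2⟩
      · left
        refine ⟨h1.symm, ?_⟩
        rw [h2, h1]; ring
      · exact Or.inr ⟨s, e, h1.symm, h2⟩
  refine ⟨?_, hm, hi, ?_, ?_⟩
  · intro a ha
    rw [hR_c]
    exact hc a ha
  · intro a a' ha
    rw [hR_sub]
    obtain ⟨i, rfl, -⟩ := hmem a a' ha
    exact hx i
  · intro a₁ b₁ a₂ b₂ h₁ h₂ hv
    obtain ⟨i, rfl, rfl⟩ := hmem _ _ h₁
    obtain ⟨j, rfl, rfl⟩ := hmem _ _ h₂
    rw [negY_wt] at hv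
    rcases hl' i j with h3 | ⟨s, e, ⟨h3, ⟨h4, h5⟩ | ⟨h4, h5, h6, h7⟩⟩, h8⟩
    · exact absurd h3 hv
    · rw [line_val h h5 h4]
      have e1 : y - (algebraMap k F s * (x - algebraMap k F (px i)) + algebraMap k F (py i)) =
          y - (algebraMap k F s * x + algebraMap k F e) := by
        rw [h3, map_add, map_mul]; ring
      rw [e1]
      exact h8
    · rw [← h4, ← h5]
      have h9 : py i ≠ (Wt b c).negY (px i) (py i) := by
        rw [negY_wt]
        intro h'
        apply h6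
        linear_combination h'
      rw [line_val' h (m := s) (by rw [negY_wt, a1, a2, a4]; linear_combination h7) h9]
      have e1 : y - (algebraMap k F s * (x - algebraMap k F (px i)) + algebraMap k F (py i)) =
          y - (algebraMap k F s * x + algebraMap k F e) := by
        rw [h3, map_add, map_mul]; ring
      rw [e1]
      exact h8

/-- lines through two points of the subgroup are supported on the subgroup -/
lemma isUn_line {H : AddSubgroup (Wt b c).Point} (h : Gen (Wt b c) x y) {x₁ y₁ x₂ y₂ s e : k}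
    (m1 : inH H x₁ y₁) (m2 : inH H x₂ y₂) (hl : LineOK b c x₁ y₁ x₂ y₂ s e) :
    IsUn H x y (y - (algebraMap k F s * x + algebraMap k F e)) := by
  have hG := good_IsUn (H := H) h
  have a1 : (Wt b c).a₁ = 1 - c := rfl
  have a2 : (Wt b c).a₂ = -b := rfl
  have a4 : (Wt b c).a₄ = 0 := rfl
  obtain ⟨h3, ⟨h4, h5⟩ | ⟨rfl, rfl, h6, h7⟩⟩ := hl
  · have := hG.hl _ _ _ _ m1 m2 (fun h' => h4 h'.1)
    rw [line_val h h5 h4] at this
    have e1 : y - (algebraMap k F s * (x - algebraMap k F x₁) + algebraMap k F y₁) =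
        y - (algebraMap k F s * x + algebraMap k F e) := by
      rw [h3, map_add, map_mul]; ring
    rwa [e1] at this
  · have h9 : y₁ ≠ (Wt b c).negY x₁ y₁ := by
      rw [negY_wt]
      intro h'
      apply h6
      linear_combination h'
    have := hG.hl _ _ _ _ m1 m1 (fun h' => h9 h'.2)
    rw [line_val' h (m := s) (by rw [negY_wt, a1, a2, a4]; linear_combination h7) h9] at this
    have e1 : y - (algebraMap k F s * (x - algebraMap k F x₁) + algebraMap k F y₁) =
        y - (algebraMap k F s * x + algebraMap k F e) := by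
      rw [h3, map_add, map_mul]; ring
    rwa [e1] at this

lemma isUn_x {H : AddSubgroup (Wt b c).Point} (h : Gen (Wt b c) x y) {x₁ y₁ : k}
    (m1 : inH H x₁ y₁) : IsUn H x y (x - algebraMap k F x₁) := by
  have := (good_IsUn (H := H) h).hx _ _ m1
  rwa [hR_sub] at this

lemma isUn_c {H : AddSubgroup (Wt b c).Point} (h : Gen (Wt b c) x y) {a : k} (ha : a ≠ 0) :
    IsUn H x y (algebraMap k F a) := by
  have := (good_IsUn (H := H) h).hc a ha
  rwa [hR_c] at this

/-- **the functions supported on a subgroup, from a table of lines** -/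
theorem isUn_tab {H : AddSubgroup (Wt b c).Point} (h : Gen (Wt b c) x y) {r : ℕ} {u : Fin r → F}
    (hu0 : ∀ j, u j ≠ 0) (hu : ∀ j, IsUn H x y (u j)) {m : ℕ} (px py : Fin m → k)
    (hmem : ∀ a a', inH H a a' → ∃ i, a = px i ∧ a' = py i)
    (hx : ∀ i, IsMon k u (x - algebraMap k F (px i)))
    (hl : ∀ i j, i ≤ j → (px i = px j ∧ py i = -py j - (1 - c) * px j + b) ∨
      ∃ s e : k, LineOK b c (px i) (py i) (px j) (py j) s e ∧
        IsMon k u (y - (algebraMap k F s * x + algebraMap k F e))) (f : F) :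
    IsUn H x y f ↔ IsMon k u f := by
  constructor
  · exact units_ind h (good_tab h (fun a ha => isMon_c ha) (fun f g hf hg => hf.mul hu0 hg)
      (fun f hf => hf.inv) px py hmem hx hl)
  · intro hf
    exact hf.induct (fun a ha => isUn_c h ha) (good_IsUn h).hm (good_IsUn h).hi hu

/-! ### the multiples of `(0, 0)` -/

lemma inH_one (hb : b ≠ 0) : inH (AddSubgroup.zmultiples (P0 c hb)) 0 0 :=
  ⟨ns0 hb, AddSubgroup.mem_zmultiples _⟩

lemma inH_two (hb : b ≠ 0) : inH (AddSubgroup.zmultiples (P0 c hb)) b (b * c) := by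
  obtain ⟨h3, e3⟩ := two_P0 (c := c) hb
  exact ⟨h3, by rw [← e3]; exact AddSubgroup.nsmul_mem_zmultiples _ _⟩

lemma inH_three (hb : b ≠ 0) : inH (AddSubgroup.zmultiples (P0 c hb)) c (b - c) := by
  obtain ⟨h3, e3⟩ := three_P0 (c := c) hb
  exact ⟨h3, by rw [← e3]; exact AddSubgroup.nsmul_mem_zmultiples _ _⟩

lemma inH_four (hb : b ≠ 0) (hc : c ≠ 0) {d : k} (hd : b = d * c) :
    inH (AddSubgroup.zmultiples (P0 c hb)) (d * (d - 1)) (d ^ 2 * (c + 1 - d)) := by
  obtain ⟨h3, e3⟩ := four_P0 (c := c) hb hc hd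
  exact ⟨h3, by rw [← e3]; exact AddSubgroup.nsmul_mem_zmultiples _ _⟩

lemma inH_neg {H : AddSubgroup (Wt b c).Point} {a a' : k} (h : inH H a a') :
    inH H a (-a' - (1 - c) * a + b) := by
  obtain ⟨h1, h2⟩ := h
  have h3 := (nonsingular_neg (W' := Wt b c) a a').mpr h1
  have h4 : -(Point.some a a' h1) = Point.some a ((Wt b c).negY a a') h3 := Point.neg_some h1
  have h5 := H.neg_mem h2
  rw [h4] at h5
  rw [← negY_wt]
  exact ⟨h3, h5⟩

/-- the coordinates of `n P` from those of `m P` when `n + m = N` -/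
lemma mem_neg (hb : b ≠ 0) {N n m : ℕ} (h : N • P0 c hb = 0) (hnm : n + m = N) {a a' a₀ a₀' : k}
    {h1 : (Wt b c).Nonsingular a a'} (e1 : n • P0 c hb = .some a a' h1)
    {h0 : (Wt b c).Nonsingular a₀ a₀'} (e0 : m • P0 c hb = .some a₀ a₀' h0) :
    a = a₀ ∧ a' = -a₀' - (1 - c) * a₀ + b := by
  have e : n • P0 c hb = -(m • P0 c hb) := by
    rw [eq_neg_iff_add_eq_zero, ← add_nsmul, hnm]; exact h
  rw [e1, e0, Point.neg_some] at e
  simp only [Point.some.injEq] at e
  rw [negY_wt] at e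
  exact e

end Pool.Agent.UEG
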