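import Mathlib

/-!
# The place at infinity of a Weierstrass curve
-/

set_option autoImplicit false
set_option linter.unusedSectionVars false

namespace Pool.Agent.UEG

open Polynomial WeierstrassCurve.Affine WithZero

variable {k : Type*} [Field k] {W : WeierstrassCurve.Affine k}

/-- the degree of the norm -/
noncomputable def D (r : W.CoordinateRing) : WithBot ℕ := (Algebra.norm k[X] r).degree

lemma D_basis (p q : k[X]) : D (p • (1 : W.CoordinateRing) + q • CoordinateRing.mk W X) =
    max (2 • p.degree) (2 • q.degree + 3) := CoordinateRing.degree_norm_smul_basis p q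

lemma D_mul (r s : W.CoordinateRing) : D (r * s) = D r + D s := by
  unfold D; rw [map_mul, degree_mul]

lemma D_zero : D (0 : W.CoordinateRing) = ⊥ := by
  have := D_basis (W := W) 0 0
  simpa using this

lemma D_eq_bot {r : W.CoordinateRing} : D r = ⊥ ↔ r = 0 := by
  constructor
  · intro h
    obtain ⟨p, q, rfl⟩ := CoordinateRing.exists_smul_basis_eq r
    rw [D_basis] at h
    have hp : p = 0 := by
      by_contra hp
      have h1 : (2 : ℕ) • p.degree ≤ ⊥ := h ▸ le_max_left _ _
      rw [le_bot_iff, degree_eq_natDegree hp] at h1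
      exact absurd h1 (by simp [nsmul_eq_mul]; exact WithBot.coe_ne_bot)
    have hq : q = 0 := by
      by_contra hq
      have h1 : (2 : ℕ) • q.degree + 3 ≤ ⊥ := h ▸ le_max_right _ _
      rw [le_bot_iff, degree_eq_natDegree hq] at h1
      exact absurd h1 (by simp [nsmul_eq_mul]; exact WithBot.coe_ne_bot)
    rw [hp, hq, zero_smul, zero_smul, add_zero]
  · rintro rfl
    exact D_zero

lemma D_add (r s : W.CoordinateRing) : D (r + s) ≤ max (D r) (D s) := by
  obtain ⟨p, q, rfl⟩ := CoordinateRing.exists_smul_basis_eq r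
  obtain ⟨p', q', rfl⟩ := CoordinateRing.exists_smul_basis_eq s
  have e : p • (1 : W.CoordinateRing) + q • CoordinateRing.mk W X +
      (p' • (1 : W.CoordinateRing) + q' • CoordinateRing.mk W X) =
      (p + p') • (1 : W.CoordinateRing) + (q + q') • CoordinateRing.mk W X := by
    rw [add_smul, add_smul]; abel
  rw [e, D_basis, D_basis, D_basis]
  refine max_le ?_ ?_
  · have h1 : (p + p').degree ≤ max p.degree p'.degree := degree_add_le _ _
    have h2 : 2 • (p + p').degree ≤ 2 • max p.degree p'.degree := nsmul_le_nsmul_right h1 2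
    refine h2.trans ?_
    rcases le_total p.degree p'.degree with h | h
    · rw [max_eq_right h]; exact le_max_of_le_right (le_max_left _ _)
    · rw [max_eq_left h]; exact le_max_of_le_left (le_max_left _ _)
  · have h1 : (q + q').degree ≤ max q.degree q'.degree := degree_add_le _ _
    have h2 : 2 • (q + q').degree + 3 ≤ 2 • max q.degree q'.degree + 3 :=
      add_le_add_left (nsmul_le_nsmul_right h1 2) 3
    refine h2.trans ?_
    rcases le_total q.degree q'.degree with h | h
    · rw [max_eq_right h]; exact le_max_of_le_right (le_max_right _ _)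
    · rw [max_eq_left h]; exact le_max_of_le_left (le_max_right _ _)

open Classical in
/-- the absolute value at infinity on the coordinate ring -/
noncomputable def vR : Valuation W.CoordinateRing (WithZero (Multiplicative ℤ)) where
  toFun r := if r = 0 then 0 else exp (((D r).unbotD 0 : ℕ) : ℤ)
  map_zero' := by simp
  map_one' := by
    have h : D (1 : W.CoordinateRing) = 0 := by unfold D; rw [map_one, degree_one]
    rw [if_neg one_ne_zero, h]
    rfl
  map_mul' r s := by
    by_cases hr : r = 0
    · simp [hr]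
    by_cases hs : s = 0
    · simp [hs]
    rw [if_neg hr, if_neg hs, if_neg (mul_ne_zero hr hs), ← exp_add, D_mul]
    obtain ⟨m, hm⟩ := WithBot.ne_bot_iff_exists.mp (fun h => hr (D_eq_bot.mp h))
    obtain ⟨n, hn⟩ := WithBot.ne_bot_iff_exists.mp (fun h => hs (D_eq_bot.mp h))
    rw [← hm, ← hn]
    norm_cast
  map_add_le_max' r s := by
    by_cases hr : r = 0
    · simp [hr]
    by_cases hs : s = 0
    · simp [hs]
    by_cases hrs : r + s = 0
    · simp [hrs]
    rw [if_neg hr, if_neg hs, if_neg hrs]
    obtain ⟨m, hm⟩ := WithBot.ne_bot_iff_exists.mp (fun h => hr (D_eq_bot.mp h))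
    obtain ⟨n, hn⟩ := WithBot.ne_bot_iff_exists.mp (fun h => hs (D_eq_bot.mp h))
    obtain ⟨l, hl⟩ := WithBot.ne_bot_iff_exists.mp (fun h => hrs (D_eq_bot.mp h))
    have h := D_add r s
    rw [← hm, ← hn, ← hl] at h ⊢
    have h' : l ≤ max m n := by exact_mod_cast h
    rcases le_max_iff.mp h' with h' | h'
    · exact le_max_of_le_left (exp_le_exp.mpr (by simpa using h'))
    · exact le_max_of_le_right (exp_le_exp.mpr (by simpa using h'))

lemma vR_of_D {r : W.CoordinateRing} {n : ℕ} (h : D r = n) : vR r = exp (n : ℤ) := by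
  have hr : r ≠ 0 := by
    rintro rfl
    rw [D_zero] at h
    exact absurd h (by exact WithBot.bot_ne_coe)
  show (if r = 0 then 0 else exp (((D r).unbotD 0 : ℕ) : ℤ)) = _
  rw [if_neg hr, h]
  rfl

/-- the orders of the poles of the regular functions are natural numbers -/
lemma vR_cases {r : W.CoordinateRing} (hr : r ≠ 0) : ∃ n : ℕ, D r = n ∧ vR r = exp (n : ℤ) := by
  obtain ⟨m, hm⟩ := WithBot.ne_bot_iff_exists.mp (fun h => hr (D_eq_bot.mp h))
  exact ⟨m, hm.symm, vR_of_D hm.symm⟩

/-! ### homomorphisms -/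

/-- the function `x` -/
noncomputable def xR : W.CoordinateRing := CoordinateRing.mk W (C X)

/-- the function `y` -/
noncomputable def yR : W.CoordinateRing := CoordinateRing.mk W X

/-- the constants -/
noncomputable def cR : k →+* W.CoordinateRing := (CoordinateRing.mk W).comp (C.comp C)

/-- the equation of the curve at a point with coordinates in a ring over `k` -/
def Eqn {S : Type*} [CommRing S] (W : WeierstrassCurve.Affine k) (i₀ : k →+* S) (x y : S) : Prop :=
  y ^ 2 + i₀ W.a₁ * x * y + i₀ W.a₃ * y = x ^ 3 + i₀ W.a₂ * x ^ 2 + i₀ W.a₄ * x + i₀ W.a₆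

lemma eqR : (yR : W.CoordinateRing) ^ 2 + cR W.a₁ * xR * yR + cR W.a₃ * yR =
    xR ^ 3 + cR W.a₂ * xR ^ 2 + cR W.a₄ * xR + cR W.a₆ := by
  have h1 : CoordinateRing.mk W (W.polynomial) = 0 := AdjoinRoot.mk_self
  have e : W.polynomial = X ^ 2 + C (C W.a₁ * X + C W.a₃) * X -
      C (X ^ 3 + C W.a₂ * X ^ 2 + C W.a₄ * X + C W.a₆) := rfl
  have h := (congrArg (CoordinateRing.mk W) e).symm.trans h1
  simp only [map_sub, map_add, map_pow, map_mul] at h
  unfold xR yR cR
  simp only [RingHom.comp_apply]
  linear_combination h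

/-- homomorphisms out of the coordinate ring -/
noncomputable def homR {S : Type*} [CommRing S] (i₀ : k →+* S) (x y : S) (h : Eqn W i₀ x y) :
    W.CoordinateRing →+* S :=
  AdjoinRoot.lift (eval₂RingHom i₀ x) y (by
    unfold WeierstrassCurve.Affine.polynomial
    simp only [eval₂_sub, eval₂_add, eval₂_mul, eval₂_pow, eval₂_X, eval₂_C, coe_eval₂RingHom]
    have h' : y ^ 2 + i₀ W.a₁ * x * y + i₀ W.a₃ * y =
      x ^ 3 + i₀ W.a₂ * x ^ 2 + i₀ W.a₄ * x + i₀ W.a₆ := h
    linear_combination h')

section homR

variable {S : Type*} [CommRing S] (i₀ : k →+* S) (x y : S) (h : Eqn W i₀ x y)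

lemma homR_C (p : k[X]) : homR i₀ x y h (CoordinateRing.mk W (C p)) = p.eval₂ i₀ x := by
  unfold homR
  exact AdjoinRoot.lift_of _

lemma homR_x : homR i₀ x y h xR = x := by
  unfold xR; rw [homR_C, eval₂_X]

lemma homR_y : homR i₀ x y h yR = y := by
  unfold homR yR
  exact AdjoinRoot.lift_root _

lemma homR_c (c : k) : homR i₀ x y h (cR c) = i₀ c := by
  unfold cR
  show homR i₀ x y h (CoordinateRing.mk W (C (C c))) = _
  rw [homR_C, eval₂_C]

lemma basis_eq (p q : k[X]) : p • (1 : W.CoordinateRing) + q • CoordinateRing.mk W X =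
    CoordinateRing.mk W (C p) + CoordinateRing.mk W (C q) * yR := by
  rw [CoordinateRing.smul, CoordinateRing.smul, mul_one]
  rfl

lemma homR_basis (p q : k[X]) :
    homR i₀ x y h (p • (1 : W.CoordinateRing) + q • CoordinateRing.mk W X) =
      p.eval₂ i₀ x + q.eval₂ i₀ x * y := by
  rw [basis_eq, map_add, map_mul, homR_C, homR_C, homR_y]

lemma hom_ext {S : Type*} [CommRing S] {φ ψ : W.CoordinateRing →+* S}
    (hc : ∀ c, φ (cR c) = ψ (cR c)) (hx : φ xR = ψ xR) (hy : φ yR = ψ yR) : φ = ψ := by
  have h1 : ∀ p : k[X], φ (CoordinateRing.mk W (C p)) = ψ (CoordinateRing.mk W (C p)) := by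
    intro p
    have : (φ.comp (CoordinateRing.mk W)).comp C = (ψ.comp (CoordinateRing.mk W)).comp C := by
      apply Polynomial.ringHom_ext
      · intro a; exact hc a
      · exact hx
    exact congrArg (fun f : k[X] →+* S => f p) this
  refine RingHom.ext fun r => ?_
  obtain ⟨p, q, rfl⟩ := CoordinateRing.exists_smul_basis_eq r
  rw [basis_eq, map_add, map_add, map_mul, map_mul, h1, h1, hy]

/-- injectivity: only the transcendence of `x` is needed -/
lemma homR_injective {F : Type*} [Field F] (i₀ : k →+* F) (x y : F)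
    (h : Eqn W i₀ x y) (hx : ∀ p : k[X], p.eval₂ i₀ x = 0 → p = 0) :
    Function.Injective (homR i₀ x y h) := by
  rw [injective_iff_map_eq_zero]
  intro r hr
  obtain ⟨p, q, rfl⟩ := CoordinateRing.exists_smul_basis_eq r
  rw [homR_basis] at hr
  have h1 : Algebra.norm k[X] (p • (1 : W.CoordinateRing) + q • CoordinateRing.mk W X) = 0 := by
    rw [CoordinateRing.norm_smul_basis]
    apply hx
    simp only [eval₂_sub, eval₂_add, eval₂_mul, eval₂_pow, eval₂_X, eval₂_C]
    have h' : y ^ 2 + i₀ W.a₁ * x * y + i₀ W.a₃ * y =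
      x ^ 3 + i₀ W.a₂ * x ^ 2 + i₀ W.a₄ * x + i₀ W.a₆ := h
    linear_combination (p.eval₂ i₀ x - q.eval₂ i₀ x * y - q.eval₂ i₀ x * (i₀ W.a₁ * x + i₀ W.a₃)) *
      hr + (q.eval₂ i₀ x) ^ 2 * h'
  have h2 : D (p • (1 : W.CoordinateRing) + q • CoordinateRing.mk W X) = ⊥ := by
    unfold D; rw [h1, degree_zero]
  exact D_eq_bot.mp h2

end homR

/-! ### the function field -/

/-- the inclusion -/
noncomputable abbrev inc : W.CoordinateRing →+* W.FunctionField :=
  algebraMap W.CoordinateRing W.FunctionField

lemma inc_injective : Function.Injective (inc (W := W)) := IsFractionRing.injective _ _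

lemma supp_le : nonZeroDivisors W.CoordinateRing ≤ (vR (W := W)).supp.primeCompl := by
  intro r hr
  rw [Ideal.mem_primeCompl_iff, Valuation.mem_supp_iff]
  have hr0 : r ≠ 0 := nonZeroDivisors.ne_zero hr
  show ¬ (if r = 0 then 0 else exp (((D r).unbotD 0 : ℕ) : ℤ)) = 0
  rw [if_neg hr0]
  exact exp_ne_zero

/-- the absolute value at infinity -/
noncomputable def v : Valuation W.FunctionField (WithZero (Multiplicative ℤ)) :=
  (vR (W := W)).extendToLocalization (supp_le (W := W)) W.FunctionField

lemma v_inc (r : W.CoordinateRing) : v (W := W) (inc r) = vR r :=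
  Valuation.extendToLocalization_apply_map_apply vR supp_le W.FunctionField r

lemma v_basis (p q : k[X]) {n : ℕ} (h : max (2 • p.degree) (2 • q.degree + 3) = n) :
    v (W := W) (inc (p • (1 : W.CoordinateRing) + q • CoordinateRing.mk W X)) = exp (n : ℤ) := by
  rw [v_inc, vR_of_D (n := n)]
  rw [D_basis, h]

lemma ne_of_v {z : W.FunctionField} {i : ℤ} (h : v (W := W) z = exp i) : z ≠ 0 := by
  rintro rfl
  rw [map_zero] at h
  exact exp_ne_zero h.symm

/-- the function `x` in the function field -/
noncomputable def xK : W.FunctionField := inc xR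

/-- the function `y` in the function field -/
noncomputable def yK : W.FunctionField := inc yR

/-- the constants -/
noncomputable def cK : k →+* W.FunctionField := (inc (W := W)).comp cR

lemma eqK : Eqn W (cK (W := W)) xK yK := by
  have h := congrArg (inc (W := W)) (eqR (W := W))
  simp only [map_add, map_mul, map_pow] at h
  exact h

lemma inc_basis (p q : k[X]) : inc (p • (1 : W.CoordinateRing) + q • CoordinateRing.mk W X) =
    p.eval₂ cK xK + q.eval₂ cK xK * yK := by
  have h : (inc (W := W)) = homR cK xK yK eqK := by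
    apply hom_ext
    · intro c; rw [homR_c]; rfl
    · rw [homR_x]; rfl
    · rw [homR_y]; rfl
  rw [h, homR_basis]

lemma v_c {c : k} (hc : c ≠ 0) : v (W := W) (cK c) = 1 := by
  have h : cK c = inc ((C c) • (1 : W.CoordinateRing) + (0 : k[X]) • CoordinateRing.mk W X) := by
    rw [inc_basis]; simp
  rw [h, v_basis (n := 0)]
  · rfl
  · rw [degree_C hc, degree_zero]
    rfl

lemma v_x_sub (a : k) : v (W := W) (xK - cK a) = exp 2 := by
  have h : (xK - cK a : W.FunctionField) =
      inc ((X - C a : k[X]) • (1 : W.CoordinateRing) + (0 : k[X]) • CoordinateRing.mk W X) := by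
    rw [inc_basis]; simp
  rw [h, v_basis (n := 2)]
  · rfl
  · rw [degree_X_sub_C, degree_zero]
    rfl

lemma v_x : v (W := W) xK = exp 2 := by
  have := v_x_sub (W := W) 0
  rwa [map_zero, sub_zero] at this

/-- lines -/
lemma v_line (l n : k) : v (W := W) (yK - cK l * xK - cK n) = exp 3 := by
  have h : (yK - cK l * xK - cK n : W.FunctionField) =
      inc ((-(C l * X) - C n : k[X]) • (1 : W.CoordinateRing) +
        (1 : k[X]) • CoordinateRing.mk W X) := by
    rw [inc_basis]; simp; ring
  rw [h, v_basis (n := 3)]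
  · rfl
  · rw [degree_one]
    have h1 : (-(C l * X) - C n : k[X]).degree ≤ 1 := by
      refine (degree_sub_le _ _).trans (max_le ?_ ?_)
      · rw [degree_neg]; exact degree_C_mul_X_le _
      · exact degree_C_le.trans (by norm_num)
    have h2 : 2 • (-(C l * X) - C n : k[X]).degree ≤ 2 := by
      refine (nsmul_le_nsmul_right h1 2).trans ?_
      norm_num
    rw [max_eq_right]
    · rfl
    · refine h2.trans ?_
      norm_num

lemma v_y : v (W := W) yK = exp 3 := by
  have := v_line (W := W) 0 0
  rwa [map_zero, zero_mul, sub_zero, sub_zero] at this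

lemma x_ne : (xK : W.FunctionField) ≠ 0 := ne_of_v v_x

lemma y_ne : (yK : W.FunctionField) ≠ 0 := ne_of_v v_y

end Pool.Agent.UEG
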