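import Pool.Agent.Lib_helper76.UEG.A

/-!
# The invariant derivation of a Weierstrass curve
-/

set_option autoImplicit false
set_option linter.unusedSectionVars false

namespace Pool.Agent.UEG

open Polynomial WeierstrassCurve.Affine WithZero TrivSqZeroExt

variable {k : Type*} [Field k] {W : WeierstrassCurve.Affine k}

/-- dual numbers -/
abbrev T (W : WeierstrassCurve.Affine k) : Type _ := TrivSqZeroExt W.FunctionField W.FunctionField

/-- the derivative of `x` -/
noncomputable def dx : W.FunctionField := 2 * yK + cK W.a₁ * xK + cK W.a₃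

/-- the derivative of `y` -/
noncomputable def dy : W.FunctionField :=
  3 * xK ^ 2 + 2 * cK W.a₂ * xK + cK W.a₄ - cK W.a₁ * yK

lemma eqT : Eqn W ((inlHom W.FunctionField W.FunctionField).comp cK)
    (inl xK + inr dx : T W) (inl yK + inr dy) := by
  have h : (yK : W.FunctionField) ^ 2 + cK W.a₁ * xK * yK + cK W.a₃ * yK =
    xK ^ 3 + cK W.a₂ * xK ^ 2 + cK W.a₄ * xK + cK W.a₆ := eqK
  have e2 : ∀ a : T W, a ^ 2 = a * a := fun a => pow_two a
  have e3 : ∀ a : T W, a ^ 3 = a * a * a := fun a => by ring
  show (inl yK + inr dy : T W) ^ 2 + (inl (cK W.a₁) : T W) * (inl xK + inr dx) *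
    (inl yK + inr dy) + (inl (cK W.a₃) : T W) * (inl yK + inr dy) =
    (inl xK + inr dx) ^ 3 + (inl (cK W.a₂) : T W) * (inl xK + inr dx) ^ 2 +
    (inl (cK W.a₄) : T W) * (inl xK + inr dx) + (inl (cK W.a₆) : T W)
  rw [e2, e2, e3]
  apply TrivSqZeroExt.ext
  · simp
    linear_combination h
  · simp
    unfold dx dy
    ring

/-- the deformation of the inclusion -/
noncomputable def phR : W.CoordinateRing →+* T W :=
  homR ((inlHom W.FunctionField W.FunctionField).comp cK) (inl xK + inr dx)
    (inl yK + inr dy) eqT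

lemma fst_phR (r : W.CoordinateRing) : fst (phR r) = inc r := by
  have : (fstHom W.FunctionField W.FunctionField W.FunctionField).toRingHom.comp (phR (W := W)) =
      inc (W := W) := by
    apply hom_ext
    · intro c
      show fst (phR (cR c)) = _
      unfold phR
      rw [homR_c]
      simp
      rfl
    · show fst (phR xR) = _
      unfold phR
      rw [homR_x]
      simp
      rfl
    · show fst (phR yR) = _
      unfold phR
      rw [homR_y]
      simp
      rfl
  exact congrArg (fun f : W.CoordinateRing →+* W.FunctionField => f r) this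

/-- the deformation of the identity -/
noncomputable def ph : W.FunctionField →+* T W :=
  IsLocalization.lift (M := nonZeroDivisors W.CoordinateRing) (g := phR (W := W)) (by
    intro r
    rw [isUnit_iff_isUnit_fst, fst_phR, isUnit_iff_ne_zero]
    intro h
    exact nonZeroDivisors.coe_ne_zero r (inc_injective (by rw [h, map_zero])))

lemma ph_inc (r : W.CoordinateRing) : ph (W := W) (inc r) = phR r := IsLocalization.lift_eq _ _

lemma fst_ph (z : W.FunctionField) : fst (ph (W := W) z) = z := by
  have : (fstHom W.FunctionField W.FunctionField W.FunctionField).toRingHom.comp (ph (W := W)) =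
      RingHom.id W.FunctionField := by
    apply IsLocalization.ringHom_ext (nonZeroDivisors W.CoordinateRing)
    refine RingHom.ext fun r => ?_
    show fst (ph (inc r)) = inc r
    rw [ph_inc, fst_phR]
  exact congrArg (fun f : W.FunctionField →+* W.FunctionField => f z) this

/-- the invariant derivation -/
noncomputable def dv (z : W.FunctionField) : W.FunctionField := snd (ph (W := W) z)

lemma dv_add (z w : W.FunctionField) : dv (z + w) = dv z + dv w := by
  unfold dv; rw [map_add, snd_add]

lemma dv_mul (z w : W.FunctionField) : dv (z * w) = z * dv w + w * dv z := by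
  unfold dv; rw [map_mul, snd_mul, fst_ph, fst_ph, smul_eq_mul, op_smul_eq_smul, smul_eq_mul]

lemma dv_one : dv (1 : W.FunctionField) = 0 := by
  unfold dv; rw [map_one, snd_one]

lemma dv_neg (z : W.FunctionField) : dv (-z) = - dv z := by
  unfold dv; rw [map_neg, snd_neg]

lemma dv_sub (z w : W.FunctionField) : dv (z - w) = dv z - dv w := by
  rw [sub_eq_add_neg, dv_add, dv_neg, sub_eq_add_neg]

lemma dv_c (c : k) : dv (cK c : W.FunctionField) = 0 := by
  unfold dv
  show snd (ph (inc (cR c))) = 0
  rw [ph_inc]
  unfold phR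
  rw [homR_c]
  simp

lemma dv_x : dv (xK : W.FunctionField) = dx := by
  unfold dv
  show snd (ph (inc xR)) = _
  rw [ph_inc]
  unfold phR
  rw [homR_x]
  simp

lemma dv_y : dv (yK : W.FunctionField) = dy := by
  unfold dv
  show snd (ph (inc yR)) = _
  rw [ph_inc]
  unfold phR
  rw [homR_y]
  simp

/-- the logarithmic derivative -/
noncomputable def ld (z : W.FunctionField) : W.FunctionField := dv z / z

lemma ld_mul {z w : W.FunctionField} (hz : z ≠ 0) (hw : w ≠ 0) : ld (z * w) = ld z + ld w := by
  unfold ld
  rw [dv_mul]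
  field_simp
  ring

lemma ld_one : ld (1 : W.FunctionField) = 0 := by unfold ld; rw [dv_one, zero_div]

lemma ld_c (c : k) : ld (cK c : W.FunctionField) = 0 := by unfold ld; rw [dv_c, zero_div]

lemma ld_inv {z : W.FunctionField} (hz : z ≠ 0) : ld z⁻¹ = - ld z := by
  have h := ld_mul hz (inv_ne_zero hz)
  rw [mul_inv_cancel₀ hz, ld_one] at h
  linear_combination -h

lemma ld_div {z w : W.FunctionField} (hz : z ≠ 0) (hw : w ≠ 0) : ld (z / w) = ld z - ld w := by
  rw [div_eq_mul_inv, ld_mul hz (inv_ne_zero hw), ld_inv hw, sub_eq_add_neg]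

lemma ld_pow {z : W.FunctionField} (hz : z ≠ 0) (n : ℕ) : ld (z ^ n) = n * ld z := by
  induction n with
  | zero => rw [pow_zero, ld_one]; simp
  | succ n ih =>
    rw [pow_succ, ld_mul (pow_ne_zero n hz) hz, ih]
    push_cast
    ring

lemma ld_zpow {z : W.FunctionField} (hz : z ≠ 0) (n : ℤ) : ld (z ^ n) = n * ld z := by
  obtain ⟨m, rfl | rfl⟩ := n.eq_nat_or_neg
  · rw [zpow_natCast, ld_pow hz]; simp
  · rw [zpow_neg, zpow_natCast, ld_inv (pow_ne_zero m hz), ld_pow hz]; simp

lemma ld_prod {ι : Type*} (s : Finset ι) (z : ι → W.FunctionField) (hz : ∀ i, z i ≠ 0)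
    (e : ι → ℤ) : ld (∏ i ∈ s, z i ^ e i) = ∑ i ∈ s, e i * ld (z i) := by
  classical
  induction s using Finset.induction_on with
  | empty => rw [Finset.prod_empty, Finset.sum_empty, ld_one]
  | insert i s hi ih =>
    rw [Finset.prod_insert hi, Finset.sum_insert hi, ld_mul (zpow_ne_zero _ (hz i))
      (Finset.prod_ne_zero_iff.mpr fun j _ => zpow_ne_zero _ (hz j)), ih, ld_zpow (hz i)]

/-! ### the order of the derivative at infinity -/

lemma dv_pol (p : k[X]) : dv (inc (CoordinateRing.mk W (C p))) =
    inc (CoordinateRing.mk W (C (derivative p))) * dx := by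
  induction p using Polynomial.induction_on' with
  | add p q hp hq =>
    rw [C_add, map_add, map_add, dv_add, hp, hq, derivative_add, C_add, map_add, map_add, add_mul]
  | monomial n a =>
    have e : ∀ (m : ℕ) (b : k), inc (CoordinateRing.mk W (C (monomial m b))) =
        (cK b : W.FunctionField) * xK ^ m := by
      intro m b
      rw [← C_mul_X_pow_eq_monomial, C_mul, C_pow, map_mul, map_mul, map_pow, map_pow]
      rfl
    rw [e, derivative_monomial, e, dv_mul, dv_c]
    induction n with
    | zero =>
      rw [pow_zero, dv_one]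
      simp
    | succ n ih =>
      rw [pow_succ, dv_mul, dv_x]
      have h1 : (cK a : W.FunctionField) * dv (xK ^ n) = cK (a * n) * xK ^ (n - 1) * dx := by
        simpa using ih
      have h2 : (cK (a * n) : W.FunctionField) * xK ^ (n - 1) * xK = cK (a * n) * xK ^ n := by
        rcases n with _ | n
        · simp
        · rw [mul_assoc, ← pow_succ]
          rfl
      simp only [mul_zero, add_zero, Nat.add_sub_cancel]
      have h3 : (cK (a * ((n + 1 : ℕ) : k)) : W.FunctionField) = cK (a * n) + cK a := by
        rw [← map_add]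
        congr 1
        push_cast
        ring
      rw [h3]
      linear_combination xK * h1 + dx * h2

lemma v_dx_le : v (W := W) dx ≤ exp 3 := by
  by_cases h : (dx : W.FunctionField) = 0
  · rw [h, map_zero]; exact zero_le
  · have e : (dx : W.FunctionField) = inc ((C W.a₁ * X + C W.a₃ : k[X]) • (1 : W.CoordinateRing) +
        (C 2 : k[X]) • CoordinateRing.mk W X) := by
      have e2 : (C (2 : k) : k[X]).eval₂ (cK (W := W)) xK = 2 := by rw [eval₂_C, map_ofNat]
      rw [inc_basis, e2]
      simp only [eval₂_add, eval₂_mul, eval₂_C, eval₂_X]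
      unfold dx
      ring
    have h0 : ((C W.a₁ * X + C W.a₃ : k[X]) • (1 : W.CoordinateRing) +
        (C 2 : k[X]) • CoordinateRing.mk W X) ≠ 0 := by
      intro h'
      apply h
      rw [e, h', map_zero]
    obtain ⟨n, hn, hn'⟩ := vR_cases h0
    rw [e, v_inc, hn', exp_le_exp]
    rw [D_basis] at hn
    have h1 : (C W.a₁ * X + C W.a₃ : k[X]).degree ≤ 1 := by
      refine (degree_add_le _ _).trans (max_le (degree_C_mul_X_le _) ?_)
      exact degree_C_le.trans (by norm_num)
    have h2 : (C 2 : k[X]).degree ≤ 0 := degree_C_le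
    have h3 : ((n : ℕ) : WithBot ℕ) ≤ ((3 : ℕ) : WithBot ℕ) := by
      rw [← hn]
      apply max_le
      · refine (nsmul_le_nsmul_right h1 2).trans ?_
        norm_num
      · refine (add_le_add_left (nsmul_le_nsmul_right h2 2) 3).trans ?_
        norm_num
    have h4 : n ≤ 3 := WithBot.coe_le_coe.mp h3
    exact_mod_cast h4

lemma v_dy_le : v (W := W) dy ≤ exp 4 := by
  by_cases h : (dy : W.FunctionField) = 0
  · rw [h, map_zero]; exact zero_le
  · have e : (dy : W.FunctionField) = inc ((C 3 * X ^ 2 + C (2 * W.a₂) * X + C W.a₄ : k[X]) •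
        (1 : W.CoordinateRing) + (C (-W.a₁) : k[X]) • CoordinateRing.mk W X) := by
      rw [inc_basis, eval₂_add, eval₂_add, eval₂_mul, eval₂_mul, eval₂_pow, eval₂_C, eval₂_C,
        eval₂_C, eval₂_C, eval₂_X, map_neg, map_mul, map_ofNat, map_ofNat]
      unfold dy
      ring
    have h0 : ((C 3 * X ^ 2 + C (2 * W.a₂) * X + C W.a₄ : k[X]) •
        (1 : W.CoordinateRing) + (C (-W.a₁) : k[X]) • CoordinateRing.mk W X) ≠ 0 := by
      intro h'
      apply h
      rw [e, h', map_zero]
    obtain ⟨n, hn, hn'⟩ := vR_cases h0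
    rw [e, v_inc, hn', exp_le_exp]
    rw [D_basis] at hn
    have h1 : (C 3 * X ^ 2 + C (2 * W.a₂) * X + C W.a₄ : k[X]).degree ≤ 2 := by
      refine (degree_add_le _ _).trans (max_le ((degree_add_le _ _).trans (max_le ?_ ?_)) ?_)
      · exact degree_C_mul_X_pow_le 2 _
      · exact (degree_C_mul_X_le _).trans (by norm_num)
      · exact degree_C_le.trans (by norm_num)
    have h2 : (C (-W.a₁) : k[X]).degree ≤ 0 := degree_C_le
    have h3 : ((n : ℕ) : WithBot ℕ) ≤ ((4 : ℕ) : WithBot ℕ) := by
      rw [← hn]
      apply max_le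
      · refine (nsmul_le_nsmul_right h1 2).trans ?_
        norm_num
      · refine (add_le_add_left (nsmul_le_nsmul_right h2 2) 3).trans ?_
        norm_num
    have h4 : n ≤ 4 := WithBot.coe_le_coe.mp h3
    exact_mod_cast h4

lemma v_pol {p : k[X]} (hp : p ≠ 0) :
    v (W := W) (inc (CoordinateRing.mk W (C p))) = exp (2 * p.natDegree : ℤ) := by
  have h : inc (CoordinateRing.mk W (C p)) =
      inc (p • (1 : W.CoordinateRing) + (0 : k[X]) • CoordinateRing.mk W X) := by
    rw [basis_eq, C_0, map_zero, zero_mul, add_zero]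
  rw [h, v_basis (n := 2 * p.natDegree)]
  · push_cast; rfl
  · rw [degree_zero, degree_eq_natDegree hp]
    have : (2 • (⊥ : WithBot ℕ) + 3) = ⊥ := rfl
    rw [this, max_bot_right]
    rw [two_nsmul, two_mul]
    rfl

lemma v_pol_le (p : k[X]) {n : ℕ} (h : p.natDegree ≤ n) :
    v (W := W) (inc (CoordinateRing.mk W (C p))) ≤ exp (2 * n : ℤ) := by
  by_cases hp : p = 0
  · rw [hp, C_0, map_zero, map_zero, map_zero]; exact zero_le
  · rw [v_pol hp, exp_le_exp]
    have : (p.natDegree : ℤ) ≤ n := by exact_mod_cast h
    linarith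

/-- the derivative of a polynomial in `x` -/
lemma v_dpol (p : k[X]) : v (W := W) (dv (inc (CoordinateRing.mk W (C p)))) ≤
    exp (2 * p.natDegree + 1 : ℤ) := by
  by_cases h0 : p.natDegree = 0
  · rw [natDegree_eq_zero] at h0
    obtain ⟨c, rfl⟩ := h0
    have : dv (inc (CoordinateRing.mk W (C (C c)))) = 0 := dv_c c
    rw [this, map_zero]; exact zero_le
  · rw [dv_pol, map_mul]
    have h1 : (derivative p).natDegree ≤ p.natDegree - 1 := natDegree_derivative_le p
    refine (mul_le_mul' (v_pol_le _ h1) v_dx_le).trans ?_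
    rw [← exp_add, exp_le_exp]
    have : ((p.natDegree - 1 : ℕ) : ℤ) = p.natDegree - 1 := by omega
    rw [this]
    linarith

/-- **the derivation raises the order of the pole at infinity by at most one** -/
lemma v_dvR (r : W.CoordinateRing) : v (W := W) (dv (inc r)) ≤ v (W := W) (inc r) * exp 1 := by
  obtain ⟨p, q, rfl⟩ := CoordinateRing.exists_smul_basis_eq r
  by_cases hr : p • (1 : W.CoordinateRing) + q • CoordinateRing.mk W X = 0
  · rw [hr, map_zero]
    have : dv (0 : W.FunctionField) = 0 := by
      have := dv_c (W := W) 0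
      rwa [map_zero] at this
    rw [this, map_zero, zero_mul]
  obtain ⟨n, hn, hn'⟩ := vR_cases hr
  rw [v_inc, hn', ← exp_add]
  rw [D_basis] at hn
  rw [basis_eq, map_add, dv_add, map_mul, dv_mul]
  have hp : v (W := W) (dv (inc (CoordinateRing.mk W (C p)))) ≤ exp ((n : ℤ) + 1) := by
    by_cases hp0 : p = 0
    · rw [hp0, C_0, map_zero, map_zero]
      have : dv (0 : W.FunctionField) = 0 := by
        have := dv_c (W := W) 0
        rwa [map_zero] at this
      rw [this, map_zero]; exact zero_le
    · refine (v_dpol p).trans ?_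
      rw [exp_le_exp]
      have h1 : 2 • p.degree ≤ (n : WithBot ℕ) := hn ▸ le_max_left _ _
      rw [degree_eq_natDegree hp0, two_nsmul] at h1
      have h2 : p.natDegree + p.natDegree ≤ n := by exact_mod_cast h1
      have h3 : ((p.natDegree : ℤ) + p.natDegree) ≤ n := by exact_mod_cast h2
      linarith
  have hq : v (W := W) (inc (CoordinateRing.mk W (C q)) * dv (inc yR) +
      inc yR * dv (inc (CoordinateRing.mk W (C q)))) ≤ exp ((n : ℤ) + 1) := by
    by_cases hq0 : q = 0
    · rw [hq0, C_0, map_zero, map_zero]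
      have : dv (0 : W.FunctionField) = 0 := by
        have := dv_c (W := W) 0
        rwa [map_zero] at this
      rw [this, zero_mul, mul_zero, add_zero, map_zero]; exact zero_le
    · have h1 : 2 • q.degree + 3 ≤ (n : WithBot ℕ) := hn ▸ le_max_right _ _
      rw [degree_eq_natDegree hq0, two_nsmul] at h1
      have h2 : q.natDegree + q.natDegree + 3 ≤ n := by exact_mod_cast h1
      have h3 : ((q.natDegree : ℤ) + q.natDegree + 3) ≤ n := by exact_mod_cast h2
      refine (Valuation.map_add _ _ _).trans (max_le ?_ ?_)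
      · rw [map_mul, v_pol hq0]
        have : dv (inc yR : W.FunctionField) = dy := dv_y
        rw [this]
        refine (mul_le_mul_right v_dy_le _).trans ?_
        rw [← exp_add, exp_le_exp]
        linarith
      · rw [map_mul]
        have e : v (W := W) (inc yR) = exp 3 := v_y
        rw [e]
        refine (mul_le_mul_right (v_dpol q) _).trans ?_
        rw [← exp_add, exp_le_exp]
        linarith
  exact (Valuation.map_add _ _ _).trans (max_le hp hq)

/-- **the logarithmic derivative has at most a simple pole at infinity** -/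
theorem v_ld {z : W.FunctionField} (hz : z ≠ 0) : v (W := W) (ld z) ≤ exp 1 := by
  have key : ∀ r : W.CoordinateRing, r ≠ 0 → v (W := W) (ld (inc r)) ≤ exp 1 := by
    intro r hr
    have h0 : inc r ≠ 0 := fun h => hr (inc_injective (by rw [h, map_zero]))
    have h1 : v (W := W) (inc r) ≠ 0 := (Valuation.ne_zero_iff _).mpr h0
    unfold ld
    rw [map_div₀]
    rw [div_le_iff₀ (zero_lt_iff.mpr h1), mul_comm]
    exact v_dvR r
  obtain ⟨a, b, rfl⟩ := IsLocalization.exists_mk'_eq (nonZeroDivisors W.CoordinateRing) z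
  have hb : (b : W.CoordinateRing) ≠ 0 := nonZeroDivisors.coe_ne_zero b
  have ha : a ≠ 0 := by
    rintro rfl
    apply hz
    rw [IsLocalization.mk'_zero]
  rw [IsFractionRing.mk'_eq_div] at hz ⊢
  have hb' : inc (b : W.CoordinateRing) ≠ 0 := fun h => hb (inc_injective (by rw [h, map_zero]))
  have ha' : inc a ≠ 0 := fun h => ha (inc_injective (by rw [h, map_zero]))
  rw [ld_div ha' hb']
  exact (Valuation.map_sub _ _ _).trans (max_le (key a ha) (key b hb))

end Pool.Agent.UEG
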