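import Pool.Agent.Lib_helper76.UEG.BC
import Pool.Agent.Lib_helper24.TN.N4U

/-!
# Cross ratios of abscissae
-/

set_option autoImplicit false
set_option linter.unusedSectionVars false

namespace Pool.Agent.UEG

open WeierstrassCurve.Affine
open TN (Wt Orb)
open MK4 (crf)


section general

variable {F : Type*} [Field F] [DecidableEq F] {W W' : WeierstrassCurve.Affine F}
  {u r s t : F}

/-- the weight -/
noncomputable def wt (u : F) : W'.Point → F
  | 0 => (u ^ 2)⁻¹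
  | .some _ _ _ => 1

lemma wt_ne (hu : u ≠ 0) (a : W'.Point) : wt u a ≠ 0 := by
  rcases a with _ | ⟨x, y, hx⟩
  · exact inv_ne_zero (pow_ne_zero 2 hu)
  · exact one_ne_zero

lemma dx_hom (h : Chg W W' u r s t) (a b : W'.Point) :
    MK4.dx (h.hom a) (h.hom b) = u ^ 2 * wt u a * wt u b * MK4.dx a b := by
  have hu := h.hu
  rcases a with _ | ⟨x, y, hx⟩ <;> rcases b with _ | ⟨x', y', hx'⟩
  · show (0 : F) = u ^ 2 * (u ^ 2)⁻¹ * (u ^ 2)⁻¹ * 0
    rw [mul_zero]
  · show (1 : F) = u ^ 2 * (u ^ 2)⁻¹ * 1 * 1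
    field_simp
  · show (-1 : F) = u ^ 2 * 1 * (u ^ 2)⁻¹ * (-1)
    field_simp
  · show (u ^ 2 * x + r) - (u ^ 2 * x' + r) = u ^ 2 * 1 * 1 * (x - x')
    ring

/-- cross ratios do not depend on the coordinates -/
theorem crf_hom (h : Chg W W' u r s t) (a b c d : W'.Point) :
    crf (h.hom a) (h.hom b) (h.hom c) (h.hom d) = crf a b c d := by
  have hu := h.hu
  have ha := wt_ne hu a
  have hb := wt_ne hu b
  have hc := wt_ne hu c
  have hd := wt_ne hu d
  unfold crf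
  rw [dx_hom, dx_hom, dx_hom, dx_hom]
  have e1 : u ^ 2 * wt u a * wt u b * MK4.dx a b * (u ^ 2 * wt u c * wt u d * MK4.dx c d) =
      (u ^ 4 * wt u a * wt u b * wt u c * wt u d) * (MK4.dx a b * MK4.dx c d) := by ring
  have e2 : u ^ 2 * wt u a * wt u c * MK4.dx a c * (u ^ 2 * wt u b * wt u d * MK4.dx b d) =
      (u ^ 4 * wt u a * wt u b * wt u c * wt u d) * (MK4.dx a c * MK4.dx b d) := by ring
  rw [e1, e2]
  exact mul_div_mul_left _ _ (mul_ne_zero (mul_ne_zero (mul_ne_zero (mul_ne_zero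
    (pow_ne_zero 4 hu) ha) hb) hc) hd)

/-- the point has one of the abscissae `∞`, `0`, `T` -/
def Ab (T : F) (A : W.Point) : Prop :=
  A = 0 ∨ (∃ y h, A = .some 0 y h) ∨ ∃ y h, A = .some T y h

lemma orb_iff {f X T : F} (hX : X ≠ 0) (hT : T ≠ 0) (hXT : X ≠ T) : Orb (X / T) f ↔
    f = X / T ∨ f = (T - X) / T ∨ f = T / X ∨ f = (X - T) / X ∨ f = T / (T - X) ∨
      f = X / (X - T) := by
  have h1 : X - T ≠ 0 := sub_ne_zero.mpr hXT
  have h2 : T - X ≠ 0 := sub_ne_zero.mpr (Ne.symm hXT)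
  have e1 : 1 - X / T = (T - X) / T := by field_simp
  have e2 : 1 / (X / T) = T / X := by field_simp
  have e3 : 1 - 1 / (X / T) = (X - T) / X := by field_simp
  have e4 : 1 / (1 - X / T) = T / (T - X) := by rw [e1]; field_simp
  have e5 : X / T / (X / T - 1) = X / (X - T) := by
    have : X / T - 1 = (X - T) / T := by field_simp
    rw [this]
    field_simp
  unfold Orb
  rw [e3, e4, e5, e1, e2]

/-- the cross ratios of `Z` and three points with distinct abscissae in `{∞, 0, T}` -/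
theorem crf_orb {T X Y : F} (hX : X ≠ 0) (hT : T ≠ 0) (hXT : X ≠ T) (hZ : W.Nonsingular X Y)
    {f : F} {A B C : W.Point} (hA : Ab T A) (hB : Ab T B) (hC : Ab T C) (hAB : MK4.dx A B ≠ 0)
    (hAC : MK4.dx A C ≠ 0) (hBC : MK4.dx B C ≠ 0) (hf : f = crf (.some X Y hZ) A B C) :
    Orb (X / T) f := by
  rw [orb_iff hX hT hXT, hf]
  have h1 : X - T ≠ 0 := sub_ne_zero.mpr hXT
  have h2 : T - X ≠ 0 := sub_ne_zero.mpr (Ne.symm hXT)
  have h3 : X - 0 ≠ 0 := by rwa [sub_zero]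
  unfold crf
  rcases hA with rfl | ⟨a, ha, rfl⟩ | ⟨a, ha, rfl⟩ <;>
    rcases hB with rfl | ⟨b, hb, rfl⟩ | ⟨b, hb, rfl⟩
  · exact absurd rfl hAB
  · rcases hC with rfl | ⟨c, hc, rfl⟩ | ⟨c, hc, rfl⟩
    · exact absurd rfl hAC
    · exact absurd (sub_self (0 : F)) hBC
    · right; right; left
      show (-1) * (0 - T) / ((X - 0) * 1) = T / X
      field_simp
      ring
  · rcases hC with rfl | ⟨c, hc, rfl⟩ | ⟨c, hc, rfl⟩
    · exact absurd rfl hAC
    · right; right; right; right; left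
      show (-1) * (T - 0) / ((X - T) * 1) = T / (T - X)
      field_simp
      ring
    · exact absurd (sub_self T) hBC
  · rcases hC with rfl | ⟨c, hc, rfl⟩ | ⟨c, hc, rfl⟩
    · exact absurd rfl hBC
    · exact absurd (sub_self (0 : F)) hAC
    · left
      show (X - 0) * 1 / ((-1) * (0 - T)) = X / T
      field_simp
      ring
  · exact absurd (sub_self (0 : F)) hAB
  · rcases hC with rfl | ⟨c, hc, rfl⟩ | ⟨c, hc, rfl⟩
    · right; right; right; right; right
      show (X - 0) * (-1) / ((X - T) * (-1)) = X / (X - T)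
      field_simp
      ring
    · exact absurd (sub_self (0 : F)) hAC
    · exact absurd (sub_self T) hBC
  · rcases hC with rfl | ⟨c, hc, rfl⟩ | ⟨c, hc, rfl⟩
    · exact absurd rfl hBC
    · right; left
      show (X - T) * 1 / ((-1) * (T - 0)) = (T - X) / T
      field_simp
      ring
    · exact absurd (sub_self T) hAC
  · rcases hC with rfl | ⟨c, hc, rfl⟩ | ⟨c, hc, rfl⟩
    · right; right; right; left
      show (X - T) * (-1) / ((X - 0) * (-1)) = (X - T) / X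
      field_simp
      ring
    · exact absurd (sub_self (0 : F)) hBC
    · exact absurd (sub_self T) hAC
  · exact absurd (sub_self T) hAB

/-- and they are all cross ratios -/
theorem orb_crf {T X Y : F} (hX : X ≠ 0) (hT : T ≠ 0) (hXT : X ≠ T) (hZ : W.Nonsingular X Y)
    {f y₀ y₁ : F} (h0 : W.Nonsingular 0 y₀) (h1 : W.Nonsingular T y₁) (hf : Orb (X / T) f) :
    ∃ A B C : W.Point, A ∈ ({0, .some 0 y₀ h0, .some T y₁ h1} : Set W.Point) ∧
      B ∈ ({0, .some 0 y₀ h0, .some T y₁ h1} : Set W.Point) ∧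
      C ∈ ({0, .some 0 y₀ h0, .some T y₁ h1} : Set W.Point) ∧ MK4.dx A B ≠ 0 ∧ MK4.dx A C ≠ 0 ∧
      MK4.dx B C ≠ 0 ∧ f = crf (.some X Y hZ) A B C := by
  rw [orb_iff hX hT hXT] at hf
  have g1 : X - T ≠ 0 := sub_ne_zero.mpr hXT
  have g2 : T - X ≠ 0 := sub_ne_zero.mpr (Ne.symm hXT)
  have d1 : MK4.dx (0 : W.Point) (.some 0 y₀ h0) ≠ 0 := one_ne_zero
  have d2 : MK4.dx (0 : W.Point) (.some T y₁ h1) ≠ 0 := one_ne_zero
  have d3 : MK4.dx (.some 0 y₀ h0) (0 : W.Point) ≠ 0 := neg_ne_zero.mpr one_ne_zero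
  have d4 : MK4.dx (.some T y₁ h1) (0 : W.Point) ≠ 0 := neg_ne_zero.mpr one_ne_zero
  have d5 : MK4.dx (.some 0 y₀ h0 : W.Point) (.some T y₁ h1) ≠ 0 := by
    show (0 : F) - T ≠ 0
    rw [zero_sub]; exact neg_ne_zero.mpr hT
  have d6 : MK4.dx (.some T y₁ h1 : W.Point) (.some 0 y₀ h0) ≠ 0 := by
    show T - 0 ≠ 0
    rw [sub_zero]; exact hT
  have m0 : (0 : W.Point) ∈ ({0, .some 0 y₀ h0, .some T y₁ h1} : Set W.Point) := by simp
  have m1 : (.some 0 y₀ h0 : W.Point) ∈ ({0, .some 0 y₀ h0, .some T y₁ h1} : Set W.Point) := by simp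
  have m2 : (.some T y₁ h1 : W.Point) ∈ ({0, .some 0 y₀ h0, .some T y₁ h1} : Set W.Point) := by simp
  rcases hf with hf | hf | hf | hf | hf | hf
  · refine ⟨_, _, _, m1, m0, m2, d3, d5, d2, ?_⟩
    rw [hf]
    show X / T = (X - 0) * 1 / ((-1) * (0 - T))
    field_simp
    ring
  · refine ⟨_, _, _, m2, m0, m1, d4, d6, d1, ?_⟩
    rw [hf]
    show (T - X) / T = (X - T) * 1 / ((-1) * (T - 0))
    field_simp
    ring
  · refine ⟨_, _, _, m0, m1, m2, d1, d2, d5, ?_⟩
    rw [hf]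
    show T / X = (-1) * (0 - T) / ((X - 0) * 1)
    field_simp
    ring
  · refine ⟨_, _, _, m2, m1, m0, d6, d4, d3, ?_⟩
    rw [hf]
    show (X - T) / X = (X - T) * (-1) / ((X - 0) * (-1))
    field_simp
    ring
  · refine ⟨_, _, _, m0, m2, m1, d2, d1, d6, ?_⟩
    rw [hf]
    show T / (T - X) = (-1) * (T - 0) / ((X - T) * 1)
    field_simp
    ring
  · refine ⟨_, _, _, m1, m2, m0, d5, d3, d4, ?_⟩
    rw [hf]
    show X / (X - T) = (X - 0) * (-1) / ((X - T) * (-1))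
    field_simp
    ring

end general

end Pool.Agent.UEG
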