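import Pool.Agent.Lib_helper76.UEG.BD
import Pool.Agent.Lib_helper76.UE5.U5
import Pool.Agent.Lib_helper76.UE5.U4

/-!
# The solutions of the unit equation as cross ratios
-/

set_option autoImplicit false
set_option linter.unusedSectionVars false

namespace Pool.Agent.UEG

open WeierstrassCurve.Affine
open TN (Wt Orb)
open MK4 (crf)


variable {k : Type*} [Field k] {F : Type*} [Field F] [Algebra k F] [DecidableEq k] [DecidableEq F]
  {W W' : WeierstrassCurve.Affine k} {u r s t : k}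

/-- base change and change of coordinates -/
lemma Chg.hom_bc (h : Chg W W' u r s t) (Q : W'.Point) :
    (h.toF (F := F)).hom (bc F W' Q) = bc F W (h.hom Q) := by
  rcases Q with _ | ⟨x, y, hx⟩
  · rfl
  · rw [h.hom_some, bc_some, bc_some, Chg.hom_some]
    simp only [map_add, map_mul, map_pow]

/-- the generic point in the new coordinates -/
lemma Chg.hom_gen (h : Chg W W' u r s t) {X Y : F} (hZ : (WF F W).Nonsingular X Y) :
    ∃ hz : (WF F W').Nonsingular (nx F u r X) (ny F u r s t X Y),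
      (h.toF (F := F)).hom (.some _ _ hz) = .some X Y hZ := by
  have hz : (WF F W').Nonsingular (nx F u r X) (ny F u r s t X Y) := by
    rw [← (h.toF (F := F)).ns]
    rw [← X_eq h.hu, ← Y_eq h.hu]
    exact hZ
  refine ⟨hz, ?_⟩
  rw [Chg.hom_some]
  simp only [Point.some.injEq]
  exact ⟨(X_eq h.hu X).symm, (Y_eq h.hu X Y).symm⟩

/-- the group `H` over `F` -/
def HF (F : Type*) [Field F] [Algebra k F] [DecidableEq F] (H : AddSubgroup W.Point) :
    AddSubgroup (WF F W).Point := H.map (bc F W)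

/-- the cross ratios of the abscissae of a translate of `Z` and of three elements of `H` -/
def CrZ (Z : (WF F W).Point) (H : AddSubgroup (WF F W).Point) (f : F) : Prop :=
  ∃ Q ∈ H, ∃ A ∈ H, ∃ B ∈ H, ∃ C ∈ H, MK4.dx A B ≠ 0 ∧ MK4.dx A C ≠ 0 ∧ MK4.dx B C ≠ 0 ∧
    f = crf (Z + Q) A B C

/-- the cross ratios do not depend on the coordinates -/
theorem Chg.CrZ_iff (h : Chg W W' u r s t) (H : AddSubgroup W.Point) (hH : ∀ Q ∈ H, ∃ Q', h.hom Q' = Q)
    (z : (WF F W').Point) (f : F) :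
    CrZ ((h.toF (F := F)).hom z) (HF F H) f ↔ CrZ z (HF F (H.comap h.hom)) f := by
  have hdx : ∀ a b : (WF F W').Point, MK4.dx ((h.toF (F := F)).hom a) ((h.toF (F := F)).hom b) ≠ 0 ↔
      MK4.dx a b ≠ 0 := by
    intro a b
    rw [dx_hom, Ne, Ne, mul_eq_zero, or_iff_right]
    exact mul_ne_zero (mul_ne_zero (pow_ne_zero 2 h.toF.hu) (wt_ne h.toF.hu a)) (wt_ne h.toF.hu b)
  have lift : ∀ Q ∈ HF F H, ∃ Q' ∈ HF F (H.comap h.hom), (h.toF (F := F)).hom Q' = Q := by
    rintro _ ⟨Q, hQ, rfl⟩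
    obtain ⟨Q', rfl⟩ := hH Q hQ
    exact ⟨bc F W' Q', ⟨Q', hQ, rfl⟩, h.hom_bc Q'⟩
  have down : ∀ Q' ∈ HF F (H.comap h.hom), (h.toF (F := F)).hom Q' ∈ HF F H := by
    rintro _ ⟨Q', hQ', rfl⟩
    rw [h.hom_bc]
    exact ⟨h.hom Q', hQ', rfl⟩
  constructor
  · rintro ⟨Q, hQ, A, hA, B, hB, C, hC, h1, h2, h3, hf⟩
    obtain ⟨Q', hQ', rfl⟩ := lift Q hQ
    obtain ⟨A', hA', rfl⟩ := lift A hA
    obtain ⟨B', hB', rfl⟩ := lift B hB
    obtain ⟨C', hC', rfl⟩ := lift C hC
    rw [← map_add, crf_hom] at hf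
    exact ⟨Q', hQ', A', hA', B', hB', C', hC', (hdx _ _).mp h1, (hdx _ _).mp h2, (hdx _ _).mp h3, hf⟩
  · rintro ⟨Q, hQ, A, hA, B, hB, C, hC, h1, h2, h3, hf⟩
    refine ⟨_, down Q hQ, _, down A hA, _, down B hB, _, down C hC, (hdx _ _).mpr h1,
      (hdx _ _).mpr h2, (hdx _ _).mpr h3, ?_⟩
    rw [← map_add, crf_hom]
    exact hf

/-! ### order five -/

lemma E5_eq (t : k) : UE5.E t = Wt t t := rfl

/-- the translates of the generic point -/
lemma pts5 [CharZero k] {t : k} {x y : F} (ht : t ≠ 0) (h : UE5.Gen t x y)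
    (hz : (WF F (Wt t t)).Nonsingular x y) (n : ℕ) :
    ∃ x' y' h', UE5.Gen t x' y' ∧
      Point.some x y hz + n • bc F (Wt t t) (P0 t ht) = Point.some x' y' h' ∧
      ∀ j, UE5.X t x' y' j = UE5.X t x y (j + Fin.ofNat 5 n) := by
  induction n with
  | zero =>
    refine ⟨x, y, hz, h, ?_, fun j => ?_⟩
    · rw [zero_nsmul, add_zero]
    · congr 1
      revert j
      decide
  | succ n ih =>
    obtain ⟨x', y', h', hg, e, hX⟩ := ih
    obtain ⟨h'', e''⟩ := add_P0 (F := F) (c := t) ht hg.x_ne h'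
    refine ⟨_, _, h'', hg.next ht, ?_, fun j => ?_⟩
    · rw [succ_nsmul, ← add_assoc, e, e'']
    · rw [UE5.X_next ht hg, hX]
      congr 1
      apply Fin.ext
      simp only [Fin.val_add, Fin.ofNat, Fin.val_one]
      omega

lemma mem_HF {b c : k} {hb : b ≠ 0} {N : ℕ} (hN : 0 < N) (h : N • P0 c hb = 0)
    {Q : (WF F (Wt b c)).Point} (hQ : Q ∈ HF F (AddSubgroup.zmultiples (P0 c hb))) :
    ∃ n : ℕ, n < N ∧ Q = n • bc F (Wt b c) (P0 c hb) := by
  obtain ⟨Q', hQ', rfl⟩ := hQ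
  obtain ⟨n, hn, rfl⟩ := mem_zm hN h hQ'
  exact ⟨n, hn, map_nsmul _ _ _⟩

lemma ab_of {b c t : k} {x y : k} (h : (Wt b c).Nonsingular x y) (hx : x = 0 ∨ x = t) :
    Ab (algebraMap k F t) (bc F (Wt b c) (.some x y h)) := by
  rcases hx with rfl | rfl
  · right; left
    have h' := (WeierstrassCurve.Affine.map_nonsingular _ (inj k F) _ _).mpr h
    rw [map_zero] at h'
    refine ⟨algebraMap k F y, h', ?_⟩
    rw [bc_some]
    simp only [map_zero]
  · right; right
    exact ⟨_, _, rfl⟩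

lemma ab5 {t : k} (ht : t ≠ 0) (h5 : (5 : ℕ) • P0 t ht = 0) {A : (WF F (Wt t t)).Point}
    (hA : A ∈ HF F (AddSubgroup.zmultiples (P0 t ht))) : Ab (algebraMap k F t) A := by
  obtain ⟨Q, hQ, rfl⟩ := hA
  rcases Q with _ | ⟨a, b, hab⟩
  · exact Or.inl rfl
  · apply ab_of
    rcases UE5.mem5 ht h5 ⟨hab, hQ⟩ with ⟨h1, -⟩ | ⟨h1, -⟩ | ⟨h1, -⟩ | ⟨h1, -⟩
    · exact Or.inl h1
    · exact Or.inr h1
    · exact Or.inr h1
    · exact Or.inl h1

/-- the cross ratios in coordinates, order five -/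
theorem cross5 [CharZero k] {t : k} {x y : F} (ht : t ≠ 0) (h5 : (5 : ℕ) • P0 t ht = 0)
    (h : UE5.Gen t x y) (hz : (WF F (Wt t t)).Nonsingular x y) (f : F) :
    (∃ i, Orb (UE5.X t x y i / algebraMap k F t) f) ↔
      CrZ (.some x y hz) (HF F (AddSubgroup.zmultiples (P0 t ht))) f := by
  have hT : algebraMap k F t ≠ 0 := (_root_.map_ne_zero _).mpr ht
  have memP : ∀ n : ℕ, n • bc F (Wt t t) (P0 t ht) ∈ HF F (AddSubgroup.zmultiples (P0 t ht)) :=
    fun n => ⟨n • P0 t ht, AddSubgroup.nsmul_mem_zmultiples _ _, map_nsmul _ _ _⟩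
  constructor
  · rintro ⟨i, hi⟩
    obtain ⟨x', y', h', hg, e, hX⟩ := pts5 ht h hz i.val
    have h0 := hX 0
    have hi2 : (0 : Fin 5) + Fin.ofNat 5 i.val = i := by
      rw [zero_add]
      apply Fin.ext
      exact Nat.mod_eq_of_lt i.isLt
    rw [hi2] at h0
    have h0' : x' = UE5.X t x y i := h0
    rw [← h0'] at hi
    have n0 := (WeierstrassCurve.Affine.map_nonsingular _ (inj k F) _ _).mpr (ns0 (c := t) ht)
    have n0' := n0
    rw [map_zero] at n0'
    obtain ⟨h2, e2⟩ := two_P0 (c := t) ht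
    have n2 := (WeierstrassCurve.Affine.map_nonsingular _ (inj k F) _ _).mpr h2
    obtain ⟨A, B, C, hA, hB, hC, d1, d2, d3, hf⟩ := orb_crf hg.x_ne hT
      (fun h' => hg.xt_ne (by rw [h', sub_self])) h' n0' n2 hi
    have mem : ∀ {A : (WF F (Wt t t)).Point}, A ∈ ({0, .some 0 0 n0',
        .some (algebraMap k F t) (algebraMap k F (t * t)) n2} : Set (WF F (Wt t t)).Point) →
        A ∈ HF F (AddSubgroup.zmultiples (P0 t ht)) := by
      rintro A (rfl | rfl | rfl)
      · exact zero_mem _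
      · have := memP 1
        rw [one_nsmul] at this
        convert this using 1
        unfold P0
        rw [bc_some]
        simp only [map_zero]
      · have := memP 2
        rw [← map_nsmul, e2, bc_some] at this
        exact this
    refine ⟨_, memP i.val, A, mem hA, B, mem hB, C, mem hC, d1, d2, d3, ?_⟩
    rw [e]
    exact hf
  · rintro ⟨Q, hQ, A, hA, B, hB, C, hC, d1, d2, d3, hf⟩
    obtain ⟨n, hn, rfl⟩ := mem_HF (by norm_num) h5 hQ
    obtain ⟨x', y', h', hg, e, hX⟩ := pts5 ht h hz n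
    rw [e] at hf
    refine ⟨Fin.ofNat 5 n, ?_⟩
    have h0 := hX 0
    rw [zero_add] at h0
    have h0' : x' = UE5.X t x y (Fin.ofNat 5 n) := h0
    rw [← h0']
    exact crf_orb hg.x_ne hT (fun h' => hg.xt_ne (by rw [h', sub_self])) h' (ab5 ht h5 hA)
      (ab5 ht h5 hB) (ab5 ht h5 hC) d1 d2 d3 hf

/-! ### order four -/

lemma orb_flip {u f : F} (h0 : u ≠ 0) (h1 : u ≠ 1) : Orb (u / (u - 1)) f ↔ Orb u f := by
  have g1 : u - 1 ≠ 0 := sub_ne_zero.mpr h1
  have g2 : 1 - u ≠ 0 := sub_ne_zero.mpr (Ne.symm h1)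
  have e1 : 1 - u / (u - 1) = 1 / (1 - u) := by
    rw [eq_div_iff g2]
    field_simp
    ring
  have e2 : 1 / (u / (u - 1)) = 1 - 1 / u := by field_simp
  have e3 : 1 - 1 / (u / (u - 1)) = 1 / u := by rw [e2]; ring
  have e4 : 1 / (1 - u / (u - 1)) = 1 - u := by rw [e1]; field_simp
  have e5 : u / (u - 1) / (u / (u - 1) - 1) = u := by
    have : u / (u - 1) - 1 = 1 / (u - 1) := by field_simp; ring
    rw [this]
    field_simp
  unfold Orb
  rw [e3, e4, e5, e1, e2]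
  constructor
  · rintro (h | h | h | h | h | h)
    · exact Or.inr (Or.inr (Or.inr (Or.inr (Or.inr h))))
    · exact Or.inr (Or.inr (Or.inr (Or.inr (Or.inl h))))
    · exact Or.inr (Or.inr (Or.inr (Or.inl h)))
    · exact Or.inr (Or.inr (Or.inl h))
    · exact Or.inr (Or.inl h)
    · exact Or.inl h
  · rintro (h | h | h | h | h | h)
    · exact Or.inr (Or.inr (Or.inr (Or.inr (Or.inr h))))
    · exact Or.inr (Or.inr (Or.inr (Or.inr (Or.inl h))))
    · exact Or.inr (Or.inr (Or.inr (Or.inl h)))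
    · exact Or.inr (Or.inr (Or.inl h))
    · exact Or.inr (Or.inl h)
    · exact Or.inl h

/-- the translates of the generic point -/
lemma pts4 [CharZero k] {t : k} {x y : F} (ht : t ≠ 0) (h : TN.Gen t 0 x y)
    (hz : (WF F (Wt t 0)).Nonsingular x y) (n : ℕ) :
    ∃ x' y' h', TN.Gen t 0 x' y' ∧
      Point.some x y hz + n • bc F (Wt t 0) (P0 0 ht) = Point.some x' y' h' ∧
      ((n % 2 = 0 ∧ (∀ f, Orb (x' / algebraMap k F t) f ↔ Orb (x / algebraMap k F t) f) ∧
        ∀ f, Orb (y' / x' ^ 2) f ↔ Orb (y / x ^ 2) f) ∨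
      (n % 2 = 1 ∧ (∀ f, Orb (x' / algebraMap k F t) f ↔ Orb (y / x ^ 2) f) ∧
        ∀ f, Orb (y' / x' ^ 2) f ↔ Orb (x / algebraMap k F t) f)) := by
  have hT : algebraMap k F t ≠ 0 := (_root_.map_ne_zero _).mpr ht
  induction n with
  | zero =>
    exact ⟨x, y, hz, h, by rw [zero_nsmul, add_zero],
      Or.inl ⟨rfl, fun _ => Iff.rfl, fun _ => Iff.rfl⟩⟩
  | succ n ih =>
    obtain ⟨x', y', h', hg, e, hX⟩ := ih
    obtain ⟨h'', e''⟩ := add_P0 (F := F) (c := 0) ht hg.x_ne h'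
    have gx := hg.x_ne
    have gy := hg.y_ne
    have gt := hg.xc_ne t
    have he := hg.eq
    rw [map_zero] at he
    have a1 : algebraMap k F t * y' / x' ^ 2 / algebraMap k F t = y' / x' ^ 2 := by
      field_simp
    have a2 : algebraMap k F t ^ 2 * (x' ^ 2 - y') / x' ^ 3 /
        (algebraMap k F t * y' / x' ^ 2) ^ 2 =
        x' / algebraMap k F t / (x' / algebraMap k F t - 1) := by
      have e1 : x' ^ 2 - y' = y' ^ 2 / (x' - algebraMap k F t) := by
        rw [eq_div_iff gt]; linear_combination -he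
      have e2 : x' / algebraMap k F t - 1 = (x' - algebraMap k F t) / algebraMap k F t := by
        field_simp
      rw [e1, e2]
      field_simp
    have u0 : x' / algebraMap k F t ≠ 0 := div_ne_zero gx hT
    have u1 : x' / algebraMap k F t ≠ 1 := by
      rw [Ne, div_eq_one_iff_eq hT]
      intro h'
      exact gt (by rw [h', sub_self])
    refine ⟨_, _, h'', hg.next ht, by rw [succ_nsmul, ← add_assoc, e, e''], ?_⟩
    rw [a1, a2]
    rcases hX with ⟨hn, b1, b2⟩ | ⟨hn, b1, b2⟩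
    · right
      exact ⟨by omega, b2, fun f => (orb_flip u0 u1).trans (b1 f)⟩
    · left
      exact ⟨by omega, b2, fun f => (orb_flip u0 u1).trans (b1 f)⟩

lemma ab4 {t : k} (ht : t ≠ 0) (h4 : (4 : ℕ) • P0 (0 : k) ht = 0) {A : (WF F (Wt t 0)).Point}
    (hA : A ∈ HF F (AddSubgroup.zmultiples (P0 (0 : k) ht))) : Ab (algebraMap k F t) A := by
  obtain ⟨Q, hQ, rfl⟩ := hA
  rcases Q with _ | ⟨a, b, hab⟩
  · exact Or.inl rfl
  · apply ab_of
    rcases UE4.mem4 ht h4 ⟨hab, hQ⟩ with ⟨h1, -⟩ | ⟨h1, -⟩ | ⟨h1, -⟩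
    · exact Or.inl h1
    · exact Or.inr h1
    · exact Or.inl h1

/-- the cross ratios in coordinates, order four -/
theorem cross4 [CharZero k] {t : k} {x y : F} (ht : t ≠ 0) (h4 : (4 : ℕ) • P0 (0 : k) ht = 0)
    (h : TN.Gen t 0 x y) (hz : (WF F (Wt t 0)).Nonsingular x y) (f : F) :
    (Orb (x / algebraMap k F t) f ∨ Orb (y / x ^ 2) f) ↔
      CrZ (.some x y hz) (HF F (AddSubgroup.zmultiples (P0 (0 : k) ht))) f := by
  have hT : algebraMap k F t ≠ 0 := (_root_.map_ne_zero _).mpr ht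
  have memP : ∀ n : ℕ, n • bc F (Wt t 0) (P0 0 ht) ∈
      HF F (AddSubgroup.zmultiples (P0 (0 : k) ht)) :=
    fun n => ⟨n • P0 0 ht, AddSubgroup.nsmul_mem_zmultiples _ _, map_nsmul _ _ _⟩
  constructor
  · intro hi
    obtain ⟨n, x', y', h', hg, e, hi⟩ : ∃ (n : ℕ) (x' y' : F) (h' : (WF F (Wt t 0)).Nonsingular x' y'),
        TN.Gen t 0 x' y' ∧ Point.some x y hz + n • bc F (Wt t 0) (P0 0 ht) =
          Point.some x' y' h' ∧ Orb (x' / algebraMap k F t) f := by
      rcases hi with hi | hi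
      · obtain ⟨x', y', h', hg, e, hX⟩ := pts4 ht h hz 0
        rcases hX with ⟨hn, b1, b2⟩ | ⟨hn, b1, b2⟩
        · exact ⟨0, x', y', h', hg, e, (b1 f).mpr hi⟩
        · exact absurd hn (by norm_num)
      · obtain ⟨x', y', h', hg, e, hX⟩ := pts4 ht h hz 1
        rcases hX with ⟨hn, b1, b2⟩ | ⟨hn, b1, b2⟩
        · exact absurd hn (by norm_num)
        · exact ⟨1, x', y', h', hg, e, (b1 f).mpr hi⟩
    have n0 := (WeierstrassCurve.Affine.map_nonsingular _ (inj k F) _ _).mpr (ns0 (c := (0 : k)) ht)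
    have n0' := n0
    rw [map_zero] at n0'
    obtain ⟨h2, e2⟩ := two_P0 (c := (0 : k)) ht
    have n2 := (WeierstrassCurve.Affine.map_nonsingular _ (inj k F) _ _).mpr h2
    obtain ⟨A, B, C, hA, hB, hC, d1, d2, d3, hf⟩ := orb_crf hg.x_ne hT
      (fun h' => hg.xc_ne t (by rw [h', sub_self])) h' n0' n2 hi
    have mem : ∀ {A : (WF F (Wt t 0)).Point}, A ∈ ({0, .some 0 0 n0',
        .some (algebraMap k F t) (algebraMap k F (t * 0)) n2} : Set (WF F (Wt t 0)).Point) →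
        A ∈ HF F (AddSubgroup.zmultiples (P0 (0 : k) ht)) := by
      rintro A (rfl | rfl | rfl)
      · exact zero_mem _
      · have := memP 1
        rw [one_nsmul] at this
        convert this using 1
        unfold P0
        rw [bc_some]
        simp only [map_zero]
      · have := memP 2
        rw [← map_nsmul, e2, bc_some] at this
        exact this
    refine ⟨_, memP n, A, mem hA, B, mem hB, C, mem hC, d1, d2, d3, ?_⟩
    rw [e]
    exact hf
  · rintro ⟨Q, hQ, A, hA, B, hB, C, hC, d1, d2, d3, hf⟩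
    obtain ⟨n, hn, rfl⟩ := mem_HF (by norm_num) h4 hQ
    obtain ⟨x', y', h', hg, e, hX⟩ := pts4 ht h hz n
    rw [e] at hf
    have key := crf_orb hg.x_ne hT (fun h' => hg.xc_ne t (by rw [h', sub_self])) h' (ab4 ht h4 hA)
      (ab4 ht h4 hB) (ab4 ht h4 hC) d1 d2 d3 hf
    rcases hX with ⟨-, b1, -⟩ | ⟨-, b1, -⟩
    · exact Or.inl ((b1 f).mp key)
    · exact Or.inr ((b1 f).mp key)

end Pool.Agent.UEG
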