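import Pool.Agent.Lib_helper76.UEG.B

/-!
# The derivation bound and generic points
-/

set_option autoImplicit false
set_option linter.unusedSectionVars false

namespace Pool.Agent.UEG

open Polynomial WeierstrassCurve.Affine WithZero

variable {k : Type*} [Field k] {W : WeierstrassCurve.Affine k}

/-- **The derivation bound at infinity.** If `f + g = 1`, `f' ≠ 0`, and `Q f'/f`, `Q g'/g` are regular
outside infinity, the orders of `f` and `g` are at most the order of the pole of `Q` plus one. -/
theorem bound_K {f g Q : W.FunctionField} (hf0 : f ≠ 0) (hg0 : g ≠ 0) (h : f + g = 1)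
    (hd : dv f ≠ 0) {a b : W.CoordinateRing} (ha : Q * ld f = inc a) (hb : Q * ld g = inc b)
    {q : ℤ} (hQ : v (W := W) Q = exp q) {n n' : ℤ} (vf : v (W := W) f = exp n)
    (vg : v (W := W) g = exp n') :
    (n = n' ∧ 1 ≤ n ∧ n ≤ q + 1) ∨ (n = 0 ∧ n' = 0) ∨ (-(q + 1) ≤ n ∧ n ≤ -1 ∧ n' = 0) ∨
      (n = 0 ∧ -(q + 1) ≤ n' ∧ n' ≤ -1) := by
  have hQ0 : Q ≠ 0 := ne_of_v hQ
  have hd' : f * ld f + g * ld g = 0 := by
    have h2 := congrArg dv h
    rw [dv_add, dv_one] at h2
    unfold ld
    rw [mul_div_cancel₀ _ hf0, mul_div_cancel₀ _ hg0]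
    exact h2
  have hN : f * inc a + g * inc b = 0 := by
    rw [← ha, ← hb]
    linear_combination Q * hd'
  have hg1 : g = 1 - f := by rw [← h]; ring
  have hNa1 : inc a ≠ 0 := by
    rw [← ha]
    exact mul_ne_zero hQ0 (div_ne_zero hd hf0)
  have ha0 : a ≠ 0 := by
    rintro rfl
    exact hNa1 (map_zero _)
  have hNb1 : inc b ≠ 0 := by
    intro h'
    rw [h', mul_zero, add_zero] at hN
    exact mul_ne_zero hf0 hNa1 hN
  have hb0 : b ≠ 0 := by
    rintro rfl
    exact hNb1 (map_zero _)
  have hS0 : inc (a - b) ≠ 0 := by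
    intro h'
    rw [map_sub] at h'
    have h2 : inc a = inc b := sub_eq_zero.mp h'
    apply hNb1
    rw [h2, ← add_mul, h, one_mul] at hN
    exact hN
  have hab0 : a - b ≠ 0 := by
    intro h'
    exact hS0 (by rw [h', map_zero])
  obtain ⟨i, -, hi⟩ := vR_cases ha0
  obtain ⟨j, -, hj⟩ := vR_cases hb0
  obtain ⟨l, -, hl⟩ := vR_cases hab0
  rw [← v_inc] at hi hj hl
  have bi : (i : ℤ) ≤ q + 1 := by
    rw [← exp_le_exp, ← hi, ← ha, map_mul, hQ, exp_add]
    exact mul_le_mul_right (v_ld hf0) _
  have bj : (j : ℤ) ≤ q + 1 := by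
    rw [← exp_le_exp, ← hj, ← hb, map_mul, hQ, exp_add]
    exact mul_le_mul_right (v_ld hg0) _
  have bl : (l : ℤ) ≤ q + 1 := by
    rw [← exp_le_exp, ← hl, map_sub]
    refine (Valuation.map_sub _ _ _).trans (max_le ?_ ?_)
    · rw [hi, exp_le_exp]; exact bi
    · rw [hj, exp_le_exp]; exact bj
  have e1 : f * inc (a - b) = - inc b := by
    rw [hg1] at hN
    rw [map_sub]
    linear_combination hN
  have e2 : g * inc (a - b) = inc a := by
    rw [hg1] at hN ⊢
    rw [map_sub]
    linear_combination -hN
  have b1 : n + l = j := by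
    have := congrArg (v (W := W)) e1
    rw [map_mul, Valuation.map_neg, vf, hl, hj, ← exp_add, exp_inj] at this
    exact this
  have b2 : n' + l = i := by
    have := congrArg (v (W := W)) e2
    rw [map_mul, vg, hl, hi, ← exp_add, exp_inj] at this
    exact this
  rcases lt_trichotomy n 0 with hn0 | hn0 | hn0
  · have h3 : v (W := W) f < 1 := by rw [vf, ← exp_zero, exp_lt_exp]; exact hn0
    have h4 : v (W := W) g = 1 := by rw [hg1]; exact Valuation.map_one_sub_of_lt _ h3
    rw [vg, exp_eq_one] at h4
    right; right; left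
    exact ⟨by omega, by omega, h4⟩
  · have h4 : v (W := W) g ≤ 1 := by
      rw [hg1]
      refine (Valuation.map_sub _ _ _).trans (max_le (by rw [map_one]) ?_)
      rw [vf, hn0, exp_zero]
    rw [vg, ← exp_zero, exp_le_exp] at h4
    rcases eq_or_lt_of_le h4 with h5 | h5
    · exact Or.inr (Or.inl ⟨hn0, h5⟩)
    · exact Or.inr (Or.inr (Or.inr ⟨hn0, by omega, by omega⟩))
  · have h3 : v (W := W) (1 : W.FunctionField) < v (W := W) f := by
      rw [vf, map_one, ← exp_zero, exp_lt_exp]; exact hn0
    have h4 : v (W := W) g = v (W := W) f := by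
      rw [hg1]; exact Valuation.map_sub_eq_of_lt_right _ h3
    rw [vg, vf, exp_inj] at h4
    left
    exact ⟨h4.symm, by omega, by omega⟩

/-! ### generic points -/

variable {F : Type*} [Field F] [Algebra k F]

/-- a generic point of the curve -/
structure Gen (W : WeierstrassCurve.Affine k) {F : Type*} [Field F] [Algebra k F] (x y : F) :
    Prop where
  eq : Eqn W (algebraMap k F) x y
  tr : Transcendental k x

lemma Gen.tr' {x y : F} (h : Gen W x y) (p : k[X]) (hp : p.eval₂ (algebraMap k F) x = 0) :
    p = 0 := by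
  by_contra hne
  exact h.tr ⟨p, hne, hp⟩

/-- the embedding of the function field given by a generic point -/
noncomputable def io {x y : F} (h : Gen W x y) : W.FunctionField →+* F :=
  IsLocalization.lift (M := nonZeroDivisors W.CoordinateRing)
    (g := homR (algebraMap k F) x y h.eq) (by
    intro r
    rw [isUnit_iff_ne_zero]
    intro h0
    exact nonZeroDivisors.coe_ne_zero r
      (homR_injective (algebraMap k F) x y h.eq h.tr' (by rw [h0, map_zero])))

section io

variable {x y : F} (h : Gen W x y)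

lemma io_inc (r : W.CoordinateRing) : io h (inc r) = homR (algebraMap k F) x y h.eq r :=
  IsLocalization.lift_eq _ _

lemma io_x : io h xK = x := (io_inc h _).trans (homR_x _ _ _ _)

lemma io_y : io h yK = y := (io_inc h _).trans (homR_y _ _ _ _)

lemma io_c (c : k) : io h (cK c) = algebraMap k F c := (io_inc h _).trans (homR_c _ _ _ _ _)

lemma io_inj : Function.Injective (io h) := (io h).injective

include h

lemma Gen.x_ne : x ≠ 0 := by
  rw [← io_x h]; exact (_root_.map_ne_zero _).mpr UEG.x_ne

lemma Gen.x_sub_ne (a : k) : x - algebraMap k F a ≠ 0 := by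
  have : x - algebraMap k F a = io h (xK - cK a) := by rw [map_sub, io_x, io_c]
  rw [this]; exact (_root_.map_ne_zero _).mpr (ne_of_v (v_x_sub a))

lemma Gen.line_ne (l n : k) : y - algebraMap k F l * x - algebraMap k F n ≠ 0 := by
  have : y - algebraMap k F l * x - algebraMap k F n = io h (yK - cK l * xK - cK n) := by
    rw [map_sub, map_sub, map_mul, io_y, io_c, io_x, io_c]
  rw [this]; exact (_root_.map_ne_zero _).mpr (ne_of_v (v_line l n))

lemma Gen.y_ne : y ≠ 0 := by
  rw [← io_y h]; exact (_root_.map_ne_zero _).mpr UEG.y_ne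

/-- linear independence of `1, x, x², …` and `y, x y, …` over `k` -/
theorem Gen.ind {p q : k[X]} (h0 : p.eval₂ (algebraMap k F) x + q.eval₂ (algebraMap k F) x * y = 0) :
    p = 0 ∧ q = 0 := by
  have h1 : homR (algebraMap k F) x y h.eq
      (p • (1 : W.CoordinateRing) + q • CoordinateRing.mk W X) = 0 := by
    rw [homR_basis]; exact h0
  have h2 : p • (1 : W.CoordinateRing) + q • CoordinateRing.mk W X = 0 :=
    homR_injective (algebraMap k F) x y h.eq h.tr' (by rw [h1, map_zero])
  exact CoordinateRing.smul_basis_eq_zero h2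

end io

end Pool.Agent.UEG
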