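import Pool.Agent.Lib_helper76.UEG.V

/-!
# Change of coordinates and the group law
-/

set_option autoImplicit false
set_option linter.unusedSectionVars false

namespace Pool.Agent.UEG

open WeierstrassCurve.Affine

variable {k : Type*} [Field k]

/-- `W` is obtained from `W'` by the change of variables `(x, y) ↦ (u² x + r, u³ y + u² s x + t)` -/
structure Chg (W W' : WeierstrassCurve.Affine k) (u r s t : k) : Prop where
  hu : u ≠ 0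
  h1 : u * W'.a₁ = W.a₁ + 2 * s
  h2 : u ^ 2 * W'.a₂ = W.a₂ - s * W.a₁ + 3 * r - s ^ 2
  h3 : u ^ 3 * W'.a₃ = W.a₃ + r * W.a₁ + 2 * t
  h4 : u ^ 4 * W'.a₄ = W.a₄ - s * W.a₃ + 2 * r * W.a₂ - (t + r * s) * W.a₁ + 3 * r ^ 2 - 2 * s * t
  h6 : u ^ 6 * W'.a₆ = W.a₆ + r * W.a₄ + r ^ 2 * W.a₂ + r ^ 3 - t * W.a₃ - t ^ 2 - r * t * W.a₁

variable {W W' : WeierstrassCurve.Affine k} {u r s t : k}

lemma Chg.eqn (h : Chg W W' u r s t) (x y : k) :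
    W.Equation (u ^ 2 * x + r) (u ^ 3 * y + u ^ 2 * s * x + t) ↔ W'.Equation x y := by
  rw [equation_iff', equation_iff']
  have e : (u ^ 3 * y + u ^ 2 * s * x + t) ^ 2 + W.a₁ * (u ^ 2 * x + r) *
      (u ^ 3 * y + u ^ 2 * s * x + t) + W.a₃ * (u ^ 3 * y + u ^ 2 * s * x + t) -
      ((u ^ 2 * x + r) ^ 3 + W.a₂ * (u ^ 2 * x + r) ^ 2 + W.a₄ * (u ^ 2 * x + r) + W.a₆) =
      u ^ 6 * (y ^ 2 + W'.a₁ * x * y + W'.a₃ * y -
        (x ^ 3 + W'.a₂ * x ^ 2 + W'.a₄ * x + W'.a₆)) := by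
    linear_combination -(u ^ 5 * x * y) * h.h1 + u ^ 4 * x ^ 2 * h.h2 - u ^ 3 * y * h.h3 +
      u ^ 2 * x * h.h4 + h.h6
  rw [e, mul_eq_zero]
  exact or_iff_right (pow_ne_zero 6 h.hu)

lemma Chg.negY (h : Chg W W' u r s t) (x y : k) :
    W.negY (u ^ 2 * x + r) (u ^ 3 * y + u ^ 2 * s * x + t) =
      u ^ 3 * W'.negY x y + u ^ 2 * s * x + t := by
  unfold WeierstrassCurve.Affine.negY
  linear_combination u ^ 2 * x * h.h1 + h.h3

lemma Chg.ns (h : Chg W W' u r s t) (x y : k) :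
    W.Nonsingular (u ^ 2 * x + r) (u ^ 3 * y + u ^ 2 * s * x + t) ↔ W'.Nonsingular x y := by
  rw [nonsingular_iff', nonsingular_iff', h.eqn]
  have e1 : 2 * (u ^ 3 * y + u ^ 2 * s * x + t) + W.a₁ * (u ^ 2 * x + r) + W.a₃ =
      u ^ 3 * (2 * y + W'.a₁ * x + W'.a₃) := by
    linear_combination -(u ^ 2 * x) * h.h1 - h.h3
  have e2 : W.a₁ * (u ^ 3 * y + u ^ 2 * s * x + t) -
      (3 * (u ^ 2 * x + r) ^ 2 + 2 * W.a₂ * (u ^ 2 * x + r) + W.a₄) =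
      u ^ 4 * (W'.a₁ * y - (3 * x ^ 2 + 2 * W'.a₂ * x + W'.a₄)) -
        s * (u ^ 3 * (2 * y + W'.a₁ * x + W'.a₃)) := by
    linear_combination (-(u ^ 3 * y) + s * u ^ 2 * x) * h.h1 + 2 * u ^ 2 * x * h.h2 + s * h.h3 + h.h4
  rw [e1, e2]
  have hu3 : u ^ 3 ≠ 0 := pow_ne_zero 3 h.hu
  have hu4 : u ^ 4 ≠ 0 := pow_ne_zero 4 h.hu
  constructor
  · rintro ⟨h0, h5⟩
    refine ⟨h0, ?_⟩
    by_contra hne
    push Not at hne
    rw [hne.1, hne.2] at h5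
    simp at h5
  · rintro ⟨h0, h5⟩
    refine ⟨h0, ?_⟩
    by_contra hne
    push Not at hne
    have h6 : 2 * y + W'.a₁ * x + W'.a₃ = 0 := (mul_eq_zero.mp hne.2).resolve_left hu3
    have h7 : W'.a₁ * y - (3 * x ^ 2 + 2 * W'.a₂ * x + W'.a₄) = 0 := by
      have := hne.1
      rw [h6, mul_zero, mul_zero, sub_zero] at this
      exact (mul_eq_zero.mp this).resolve_left hu4
    rcases h5 with h5 | h5
    · exact h5 h7
    · exact h5 h6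

variable [DecidableEq k]

lemma Chg.slope (h : Chg W W' u r s t) {x₁ x₂ y₁ y₂ : k} (h₁ : W'.Equation x₁ y₁)
    (h₂ : W'.Equation x₂ y₂) (hxy : ¬(x₁ = x₂ ∧ y₁ = W'.negY x₂ y₂)) :
    W.slope (u ^ 2 * x₁ + r) (u ^ 2 * x₂ + r) (u ^ 3 * y₁ + u ^ 2 * s * x₁ + t)
      (u ^ 3 * y₂ + u ^ 2 * s * x₂ + t) = u * W'.slope x₁ x₂ y₁ y₂ + s := by
  have hu := h.hu
  rcases eq_or_ne x₁ x₂ with rfl | hx
  · have hy : y₁ ≠ W'.negY x₁ y₂ := fun h' => hxy ⟨rfl, h'⟩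
    have hy12 : y₁ = y₂ := Y_eq_of_Y_ne h₁ h₂ rfl hy
    subst hy12
    have hy' : u ^ 3 * y₁ + u ^ 2 * s * x₁ + t ≠
        W.negY (u ^ 2 * x₁ + r) (u ^ 3 * y₁ + u ^ 2 * s * x₁ + t) := by
      rw [h.negY]
      intro h'
      apply hy
      have : u ^ 3 * (y₁ - W'.negY x₁ y₁) = 0 := by linear_combination h'
      have := (mul_eq_zero.mp this).resolve_left (pow_ne_zero 3 hu)
      linear_combination this
    rw [slope_of_Y_ne rfl hy, slope_of_Y_ne rfl hy', h.negY]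
    have hd : y₁ - W'.negY x₁ y₁ ≠ 0 := sub_ne_zero.mpr hy
    have e1 : u ^ 3 * y₁ + u ^ 2 * s * x₁ + t - (u ^ 3 * W'.negY x₁ y₁ + u ^ 2 * s * x₁ + t) =
        u ^ 3 * (y₁ - W'.negY x₁ y₁) := by ring
    rw [e1]
    rw [div_eq_iff (mul_ne_zero (pow_ne_zero 3 hu) hd)]
    field_simp
    unfold WeierstrassCurve.Affine.negY
    linear_combination (u ^ 3 * y₁ - s * u ^ 2 * x₁) * h.h1 - 2 * u ^ 2 * x₁ * h.h2 - s * h.h3 - h.h4
  · have hx' : u ^ 2 * x₁ + r ≠ u ^ 2 * x₂ + r := by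
      intro h'
      apply hx
      have : u ^ 2 * (x₁ - x₂) = 0 := by linear_combination h'
      have := (mul_eq_zero.mp this).resolve_left (pow_ne_zero 2 hu)
      linear_combination this
    rw [slope_of_X_ne hx, slope_of_X_ne hx']
    have hd : x₁ - x₂ ≠ 0 := sub_ne_zero.mpr hx
    have e1 : u ^ 2 * x₁ + r - (u ^ 2 * x₂ + r) = u ^ 2 * (x₁ - x₂) := by ring
    rw [e1, div_eq_iff (mul_ne_zero (pow_ne_zero 2 hu) hd)]
    field_simp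
    ring

lemma Chg.addX (h : Chg W W' u r s t) {x₁ x₂ y₁ y₂ : k} (h₁ : W'.Equation x₁ y₁)
    (h₂ : W'.Equation x₂ y₂) (hxy : ¬(x₁ = x₂ ∧ y₁ = W'.negY x₂ y₂)) :
    W.addX (u ^ 2 * x₁ + r) (u ^ 2 * x₂ + r) (W.slope (u ^ 2 * x₁ + r) (u ^ 2 * x₂ + r)
      (u ^ 3 * y₁ + u ^ 2 * s * x₁ + t) (u ^ 3 * y₂ + u ^ 2 * s * x₂ + t)) =
      u ^ 2 * W'.addX x₁ x₂ (W'.slope x₁ x₂ y₁ y₂) + r := by
  rw [h.slope h₁ h₂ hxy]
  unfold WeierstrassCurve.Affine.addX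
  linear_combination (-(u * W'.slope x₁ x₂ y₁ y₂)) * h.h1 + h.h2

lemma Chg.addY (h : Chg W W' u r s t) {x₁ x₂ y₁ y₂ : k} (h₁ : W'.Equation x₁ y₁)
    (h₂ : W'.Equation x₂ y₂) (hxy : ¬(x₁ = x₂ ∧ y₁ = W'.negY x₂ y₂)) :
    W.addY (u ^ 2 * x₁ + r) (u ^ 2 * x₂ + r) (u ^ 3 * y₁ + u ^ 2 * s * x₁ + t)
      (W.slope (u ^ 2 * x₁ + r) (u ^ 2 * x₂ + r)
      (u ^ 3 * y₁ + u ^ 2 * s * x₁ + t) (u ^ 3 * y₂ + u ^ 2 * s * x₂ + t)) =
      u ^ 3 * W'.addY x₁ x₂ y₁ (W'.slope x₁ x₂ y₁ y₂) +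
        u ^ 2 * s * W'.addX x₁ x₂ (W'.slope x₁ x₂ y₁ y₂) + t := by
  unfold WeierstrassCurve.Affine.addY
  rw [← h.negY, h.addX h₁ h₂ hxy]
  congr 1
  unfold WeierstrassCurve.Affine.negAddY
  rw [h.addX h₁ h₂ hxy, h.slope h₁ h₂ hxy]
  ring

/-- the map on the points -/
noncomputable def Chg.phi (h : Chg W W' u r s t) : W'.Point → W.Point
  | 0 => 0
  | .some x y hxy => .some (u ^ 2 * x + r) (u ^ 3 * y + u ^ 2 * s * x + t) ((h.ns x y).mpr hxy)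

/-- **a change of coordinates is a homomorphism** -/
noncomputable def Chg.hom (h : Chg W W' u r s t) : W'.Point →+ W.Point where
  toFun := h.phi
  map_zero' := rfl
  map_add' := by
    rintro (_ | ⟨x₁, y₁, h₁⟩) (_ | ⟨x₂, y₂, h₂⟩)
    · rfl
    · rfl
    · rfl
    · by_cases hxy : x₁ = x₂ ∧ y₁ = W'.negY x₂ y₂
      · rw [Point.add_of_Y_eq hxy.1 hxy.2]
        show (0 : W.Point) = Point.some (u ^ 2 * x₁ + r) (u ^ 3 * y₁ + u ^ 2 * s * x₁ + t) _ +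
          Point.some (u ^ 2 * x₂ + r) (u ^ 3 * y₂ + u ^ 2 * s * x₂ + t) _
        rw [Point.add_of_Y_eq]
        · rw [hxy.1]
        · rw [h.negY, ← hxy.2, hxy.1]
      · have hxy' : ¬(u ^ 2 * x₁ + r = u ^ 2 * x₂ + r ∧ u ^ 3 * y₁ + u ^ 2 * s * x₁ + t =
            W.negY (u ^ 2 * x₂ + r) (u ^ 3 * y₂ + u ^ 2 * s * x₂ + t)) := by
          rintro ⟨h3, h4⟩
          apply hxy
          have hx : x₁ = x₂ := by
            have : u ^ 2 * (x₁ - x₂) = 0 := by linear_combination h3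
            have := (mul_eq_zero.mp this).resolve_left (pow_ne_zero 2 h.hu)
            linear_combination this
          refine ⟨hx, ?_⟩
          rw [h.negY, hx] at h4
          have : u ^ 3 * (y₁ - W'.negY x₂ y₂) = 0 := by linear_combination h4
          have := (mul_eq_zero.mp this).resolve_left (pow_ne_zero 3 h.hu)
          linear_combination this
        rw [Point.add_some hxy]
        show Point.some _ _ _ = Point.some (u ^ 2 * x₁ + r) (u ^ 3 * y₁ + u ^ 2 * s * x₁ + t) _ +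
          Point.some (u ^ 2 * x₂ + r) (u ^ 3 * y₂ + u ^ 2 * s * x₂ + t) _
        rw [Point.add_some hxy']
        simp only [Point.some.injEq]
        exact ⟨(h.addX h₁.1 h₂.1 hxy).symm, (h.addY h₁.1 h₂.1 hxy).symm⟩

lemma Chg.hom_some (h : Chg W W' u r s t) {x y : k} (hxy : W'.Nonsingular x y) :
    h.hom (.some x y hxy) = .some (u ^ 2 * x + r) (u ^ 3 * y + u ^ 2 * s * x + t)
      ((h.ns x y).mpr hxy) := rfl

lemma Chg.hom_inj (h : Chg W W' u r s t) : Function.Injective h.hom := by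
  rw [injective_iff_map_eq_zero]
  rintro (_ | ⟨x₁, y₁, h₁⟩) h0
  · rfl
  · rw [h.hom_some] at h0
    exact absurd h0 (Point.some_ne_zero _)

/-- the points of the two groups -/
lemma Chg.inH (h : Chg W W' u r s t) (H : AddSubgroup W.Point) (x y : k) :
    inH H (u ^ 2 * x + r) (u ^ 3 * y + u ^ 2 * s * x + t) ↔ inH (H.comap h.hom) x y := by
  constructor
  · rintro ⟨h1, h2⟩
    exact ⟨(h.ns x y).mp h1, h2⟩
  · rintro ⟨h1, h2⟩
    exact ⟨(h.ns x y).mpr h1, h2⟩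

end Pool.Agent.UEG
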