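import Pool.Agent.Lib_helper76.UEG.T
import Pool.Agent.Lib_helper24.TN.D

/-!
# The Tate normal form
-/

set_option autoImplicit false
set_option linter.unusedSectionVars false

namespace Pool.Agent.UEG

open WeierstrassCurve.Affine

variable {k : Type*} [Field k] {W W' : WeierstrassCurve.Affine k} {u r s t : k}

section ring

variable {F : Type*} [Field F] [Algebra k F] {X Y : F}

/-- the new coordinates -/
noncomputable def nx (F : Type*) [Field F] [Algebra k F] (u r : k) (X : F) : F :=
  (X - algebraMap k F r) / algebraMap k F u ^ 2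

/-- the new coordinates -/
noncomputable def ny (F : Type*) [Field F] [Algebra k F] (u r s t : k) (X Y : F) : F :=
  (Y - algebraMap k F s * (X - algebraMap k F r) - algebraMap k F t) / algebraMap k F u ^ 3

lemma X_eq (hu : u ≠ 0) (X : F) :
    X = algebraMap k F u ^ 2 * nx F u r X + algebraMap k F r := by
  have hU : algebraMap k F u ≠ 0 := (_root_.map_ne_zero _).mpr hu
  unfold nx
  field_simp
  ring

lemma Y_eq (hu : u ≠ 0) (X Y : F) :
    Y = algebraMap k F u ^ 3 * ny F u r s t X Y +
      algebraMap k F u ^ 2 * algebraMap k F s * nx F u r X + algebraMap k F t := by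
  have hU : algebraMap k F u ≠ 0 := (_root_.map_ne_zero _).mpr hu
  unfold nx ny
  field_simp
  ring

/-- the generic point in the new coordinates -/
theorem Chg.gen (h : Chg W W' u r s t) (hg : Gen W X Y) :
    Gen W' (nx F u r X) (ny F u r s t X Y) := by
  have hu := h.hu
  have hU : algebraMap k F u ≠ 0 := (_root_.map_ne_zero _).mpr hu
  constructor
  · have h1 := congrArg (algebraMap k F) h.h1
    have h2 := congrArg (algebraMap k F) h.h2
    have h3 := congrArg (algebraMap k F) h.h3
    have h4 := congrArg (algebraMap k F) h.h4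
    have h6 := congrArg (algebraMap k F) h.h6
    have he : Y ^ 2 + algebraMap k F W.a₁ * X * Y + algebraMap k F W.a₃ * Y =
      X ^ 3 + algebraMap k F W.a₂ * X ^ 2 + algebraMap k F W.a₄ * X + algebraMap k F W.a₆ := hg.eq
    have eX := X_eq (F := F) (r := r) hu X
    have eY := Y_eq (F := F) (r := r) (s := s) (t := t) hu X Y
    simp only [map_mul, map_add, map_sub, map_pow, map_ofNat] at h1 h2 h3 h4 h6
    set x := nx F u r X with hx
    set y := ny F u r s t X Y with hy
    clear_value x y
    rw [eX, eY] at he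
    show y ^ 2 + algebraMap k F W'.a₁ * x * y + algebraMap k F W'.a₃ * y =
      x ^ 3 + algebraMap k F W'.a₂ * x ^ 2 + algebraMap k F W'.a₄ * x + algebraMap k F W'.a₆
    apply mul_left_cancel₀ (pow_ne_zero 6 hU)
    generalize algebraMap k F u = U at *
    generalize algebraMap k F s = S at *
    generalize algebraMap k F r = R at *
    linear_combination he + U ^ 5 * x * y * h1 - U ^ 4 * x ^ 2 * h2 + U ^ 3 * y * h3 -
      U ^ 2 * x * h4 - h6
  · intro hz
    apply hg.tr
    rw [X_eq (F := F) (r := r) hu X]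
    exact ((isAlgebraic_algebraMap u).pow 2 |>.mul hz).add (isAlgebraic_algebraMap r)

variable [DecidableEq k]

/-- the rings of functions agree -/
theorem Chg.RR_eq (h : Chg W W' u r s t) (H : AddSubgroup W.Point) :
    RR H X Y = RR (H.comap h.hom) (nx F u r X) (ny F u r s t X Y) := by
  have hu := h.hu
  have hU : algebraMap k F u ≠ 0 := (_root_.map_ne_zero _).mpr hu
  apply le_antisymm
  · apply Algebra.adjoin_le
    have mx : nx F u r X ∈ RR (H.comap h.hom) (nx F u r X) (ny F u r s t X Y) :=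
      Algebra.subset_adjoin (Or.inl (Or.inl rfl))
    have my : ny F u r s t X Y ∈ RR (H.comap h.hom) (nx F u r X) (ny F u r s t X Y) :=
      Algebra.subset_adjoin (Or.inl (Or.inr rfl))
    have mc : ∀ c : k, algebraMap k F c ∈ RR (H.comap h.hom) (nx F u r X) (ny F u r s t X Y) :=
      fun c => Subalgebra.algebraMap_mem _ c
    rintro z ((rfl | rfl) | ⟨a, b, hab, rfl⟩)
    · have := add_mem (mul_mem (pow_mem (mc u) 2) mx) (mc r)
      rwa [← X_eq (F := F) (r := r) hu z] at this
    · have := add_mem (add_mem (mul_mem (pow_mem (mc u) 3) my)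
        (mul_mem (mul_mem (pow_mem (mc u) 2) (mc s)) mx)) (mc t)
      rwa [← Y_eq (F := F) (r := r) (s := s) (t := t) hu X z] at this
    · have ea : u ^ 2 * ((a - r) / u ^ 2) + r = a := by field_simp; ring
      have eb : u ^ 3 * ((b - s * (a - r) - t) / u ^ 3) + u ^ 2 * s * ((a - r) / u ^ 2) + t = b := by
        field_simp; ring
      have hab' : UEG.inH (H.comap h.hom) ((a - r) / u ^ 2) ((b - s * (a - r) - t) / u ^ 3) := by
        rw [← h.inH, ea, eb]; exact hab
      have mi : (nx F u r X - algebraMap k F ((a - r) / u ^ 2))⁻¹ ∈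
          RR (H.comap h.hom) (nx F u r X) (ny F u r s t X Y) :=
        Algebra.subset_adjoin (Or.inr ⟨_, _, hab', rfl⟩)
      have e : (X - algebraMap k F a)⁻¹ = algebraMap k F ((u ^ 2)⁻¹) *
          (nx F u r X - algebraMap k F ((a - r) / u ^ 2))⁻¹ := by
        have e1 : nx F u r X - algebraMap k F ((a - r) / u ^ 2) =
            (X - algebraMap k F a) * (algebraMap k F ((u ^ 2)⁻¹)) := by
          unfold nx
          rw [map_div₀, map_inv₀, map_pow, map_sub]
          field_simp
          ring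
        rw [e1, mul_inv, ← mul_assoc, mul_comm (algebraMap k F ((u ^ 2)⁻¹)), mul_assoc,
          mul_inv_cancel₀, mul_one]
        rw [Ne, map_eq_zero]
        exact inv_ne_zero (pow_ne_zero 2 hu)
      rw [e]
      exact mul_mem (mc _) mi
  · apply Algebra.adjoin_le
    have mx : X ∈ RR H X Y := Algebra.subset_adjoin (Or.inl (Or.inl rfl))
    have my : Y ∈ RR H X Y := Algebra.subset_adjoin (Or.inl (Or.inr rfl))
    have mc : ∀ c : k, algebraMap k F c ∈ RR H X Y := fun c => Subalgebra.algebraMap_mem _ c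
    rintro z ((rfl | rfl) | ⟨a, b, hab, rfl⟩)
    · have e : nx F u r X = (X - algebraMap k F r) * algebraMap k F ((u ^ 2)⁻¹) := by
        unfold nx
        rw [map_inv₀, map_pow, div_eq_mul_inv]
      rw [e]
      exact mul_mem (sub_mem mx (mc r)) (mc _)
    · have e : ny F u r s t X Y = (Y - algebraMap k F s * (X - algebraMap k F r) -
          algebraMap k F t) * algebraMap k F ((u ^ 3)⁻¹) := by
        unfold ny
        rw [map_inv₀, map_pow, div_eq_mul_inv]
      rw [e]
      exact mul_mem (sub_mem (sub_mem my (mul_mem (mc s) (sub_mem mx (mc r)))) (mc t)) (mc _)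
    · have hab' : UEG.inH H (u ^ 2 * a + r) (u ^ 3 * b + u ^ 2 * s * a + t) := (h.inH H a b).mpr hab
      have mi : (X - algebraMap k F (u ^ 2 * a + r))⁻¹ ∈ RR H X Y :=
        Algebra.subset_adjoin (Or.inr ⟨_, _, hab', rfl⟩)
      have e : (nx F u r X - algebraMap k F a)⁻¹ = algebraMap k F (u ^ 2) *
          (X - algebraMap k F (u ^ 2 * a + r))⁻¹ := by
        have e1 : nx F u r X - algebraMap k F a =
            (X - algebraMap k F (u ^ 2 * a + r)) * (algebraMap k F (u ^ 2))⁻¹ := by
          unfold nx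
          rw [map_add, map_mul, map_pow]
          field_simp
          ring
        rw [e1, mul_inv, inv_inv, mul_comm]
      rw [e]
      exact mul_mem (mc _) mi

theorem Chg.IsUn_iff (h : Chg W W' u r s t) (H : AddSubgroup W.Point) (f : F) :
    IsUn H X Y f ↔ IsUn (H.comap h.hom) (nx F u r X) (ny F u r s t X Y) f := by
  unfold IsUn
  rw [h.RR_eq]

end ring

/-! ### the Tate normal form -/

section Tate

variable [DecidableEq k]

open TN (Wt)

/-- **the Tate normal form**: a point `P` with `2P ≠ 0`, `3P ≠ 0` -/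
theorem tate {p₁ p₂ : k} (hP : W.Nonsingular p₁ p₂) (h2 : (2 : ℕ) • Point.some p₁ p₂ hP ≠ 0)
    (h3 : (3 : ℕ) • Point.some p₁ p₂ hP ≠ 0) :
    ∃ (b c u s : k), b ≠ 0 ∧ Chg W (Wt b c) u p₁ s p₂ := by
  have hD : p₂ ≠ W.negY p₁ p₂ := by
    intro h'
    apply h2
    rw [two_nsmul]
    exact Point.add_self_of_Y_eq h'
  have hD' : 2 * p₂ + W.a₁ * p₁ + W.a₃ ≠ 0 := by
    intro h'
    apply hD
    unfold WeierstrassCurve.Affine.negY
    linear_combination h'
  set D := 2 * p₂ + W.a₁ * p₁ + W.a₃ with hDd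
  have hsl := slope_of_Y_ne (W := W) (rfl : p₁ = p₁) hD
  set s := W.slope p₁ p₁ p₂ p₂ with hs
  have hs' : s * D = 3 * p₁ ^ 2 + 2 * W.a₂ * p₁ + W.a₄ - W.a₁ * p₂ := by
    have e : p₂ - W.negY p₁ p₂ = D := by unfold WeierstrassCurve.Affine.negY; rw [hDd]; ring
    rw [hsl, e]
    field_simp
  have he := (equation_iff p₁ p₂).mp hP.1
  have hA : W.a₂ - s * W.a₁ + 3 * p₁ - s ^ 2 ≠ 0 := by
    intro h'
    apply h3
    have hxy : ¬(p₁ = p₁ ∧ p₂ = W.negY p₁ p₂) := fun h => hD h.2
    have hX : p₁ = W.addX p₁ p₁ s := by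
      unfold WeierstrassCurve.Affine.addX
      linear_combination h'
    have e2 : (2 : ℕ) • Point.some p₁ p₂ hP = Point.some _ _ (nonsingular_add hP hP hxy) := by
      rw [two_nsmul]; exact Point.add_some hxy
    have h4 := (Point.X_eq_iff (h₁ := hP) (h₂ := nonsingular_add hP hP hxy)).mp hX
    rw [← e2] at h4
    rcases h4 with h4 | h4
    · -- `P = 2P`
      have h5 : Point.some p₁ p₂ hP = 0 := by
        have : Point.some p₁ p₂ hP = Point.some p₁ p₂ hP + Point.some p₁ p₂ hP := by
          rw [← two_nsmul]; exact h4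
        exact (left_eq_add.mp this)
      exact absurd h5 (Point.some_ne_zero _)
    · rw [show (3 : ℕ) = 2 + 1 by norm_num, add_nsmul, one_nsmul]
      nth_rewrite 2 [h4]
      exact add_neg_cancel _
  set A := W.a₂ - s * W.a₁ + 3 * p₁ - s ^ 2 with hAd
  refine ⟨-A ^ 3 / D ^ 2, 1 - (W.a₁ + 2 * s) * A / D, D / A, s, ?_, ?_⟩
  · exact div_ne_zero (neg_ne_zero.mpr (pow_ne_zero 3 hA)) (pow_ne_zero 2 hD')
  · refine ⟨div_ne_zero hD' hA, ?_, ?_, ?_, ?_, ?_⟩
    · show D / A * (1 - (1 - (W.a₁ + 2 * s) * A / D)) = W.a₁ + 2 * s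
      field_simp
      ring
    · show (D / A) ^ 2 * (-(-A ^ 3 / D ^ 2)) = A
      field_simp
    · show (D / A) ^ 3 * (-(-A ^ 3 / D ^ 2)) = W.a₃ + p₁ * W.a₁ + 2 * p₂
      have e : W.a₃ + p₁ * W.a₁ + 2 * p₂ = D := by rw [hDd]; ring
      rw [e]
      field_simp
    · show (D / A) ^ 4 * 0 = _
      rw [hDd] at hs'
      linear_combination hs'
    · show (D / A) ^ 6 * 0 = _
      linear_combination he

end Tate

end Pool.Agent.UEG
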