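import Pool.Agent.Lib_helper76.UEG.TF

/-!
# The multiples of the point `(0, 0)` on the Tate normal form
-/

set_option autoImplicit false
set_option linter.unusedSectionVars false

namespace Pool.Agent.UEG

open WeierstrassCurve.Affine
open TN (Wt)

variable {k : Type*} [Field k] {b c : k}

lemma ns0 (hb : b ≠ 0) : (Wt b c).Nonsingular 0 0 := by
  rw [nonsingular_zero]
  exact ⟨rfl, Or.inl (neg_ne_zero.mpr hb)⟩

/-- the point `(0, 0)` -/
def P0 (c : k) (hb : b ≠ 0) : (Wt b c).Point := .some 0 0 (ns0 hb)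

lemma negY_wt (x y : k) : (Wt b c).negY x y = -y - (1 - c) * x + b := by
  show -y - (1 - c) * x - -b = _
  ring

variable [DecidableEq k]

lemma two_P0 (hb : b ≠ 0) : ∃ h, (2 : ℕ) • P0 c hb = .some b (b * c) h := by
  have hy : (0 : k) ≠ (Wt b c).negY 0 0 := by
    rw [negY_wt]; intro h; apply hb; linear_combination -h
  have hxy : ¬((0 : k) = 0 ∧ (0 : k) = (Wt b c).negY 0 0) := fun h => hy h.2
  have hs : (Wt b c).slope 0 0 0 0 = 0 := by
    rw [slope_of_Y_ne rfl hy]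
    show (3 * (0 : k) ^ 2 + 2 * (-b) * 0 + 0 - (1 - c) * 0) / _ = 0
    rw [div_eq_zero_iff]
    left
    ring
  have e1 : (Wt b c).addX 0 0 ((Wt b c).slope 0 0 0 0) = b := by
    rw [hs]
    show (0 : k) ^ 2 + (1 - c) * 0 - (-b) - 0 - 0 = b
    ring
  have e2 : (Wt b c).addY 0 0 0 ((Wt b c).slope 0 0 0 0) = b * c := by
    unfold WeierstrassCurve.Affine.addY WeierstrassCurve.Affine.negAddY
    rw [e1, hs, negY_wt]
    ring
  have e3 : (2 : ℕ) • P0 c hb = .some _ _ (nonsingular_add (ns0 hb) (ns0 hb) hxy) := by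
    rw [two_nsmul]; exact Point.add_some hxy
  have hns := nonsingular_add (ns0 hb) (ns0 hb) hxy
  rw [e1, e2] at hns
  refine ⟨hns, ?_⟩
  rw [e3]
  simp only [Point.some.injEq]
  exact ⟨e1, e2⟩

lemma three_P0 (hb : b ≠ 0) : ∃ h, (3 : ℕ) • P0 c hb = .some c (b - c) h := by
  obtain ⟨h2, e2⟩ := two_P0 (c := c) hb
  have hxy : ¬(b = 0 ∧ b * c = (Wt b c).negY 0 0) := fun h => hb h.1
  have hs : (Wt b c).slope b 0 (b * c) 0 = c := by
    rw [slope_of_X_ne hb]
    field_simp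
    ring
  have e1 : (Wt b c).addX b 0 ((Wt b c).slope b 0 (b * c) 0) = c := by
    rw [hs]
    show c ^ 2 + (1 - c) * c - (-b) - b - 0 = c
    ring
  have e3 : (Wt b c).addY b 0 (b * c) ((Wt b c).slope b 0 (b * c) 0) = b - c := by
    unfold WeierstrassCurve.Affine.addY WeierstrassCurve.Affine.negAddY
    rw [e1, hs, negY_wt]
    ring
  have e4 : (3 : ℕ) • P0 c hb = .some _ _ (nonsingular_add h2 (ns0 hb) hxy) := by
    rw [show (3 : ℕ) = 2 + 1 by norm_num, add_nsmul, one_nsmul, e2]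
    exact Point.add_some hxy
  have hns := nonsingular_add h2 (ns0 hb) hxy
  rw [e1, e3] at hns
  refine ⟨hns, ?_⟩
  rw [e4]
  simp only [Point.some.injEq]
  exact ⟨e1, e3⟩

lemma four_P0 (hb : b ≠ 0) (hc : c ≠ 0) {d : k} (hd : b = d * c) :
    ∃ h, (4 : ℕ) • P0 c hb = .some (d * (d - 1)) (d ^ 2 * (c + 1 - d)) h := by
  obtain ⟨h3, e3⟩ := three_P0 (c := c) hb
  have hxy : ¬(c = 0 ∧ b - c = (Wt b c).negY 0 0) := fun h => hc h.1
  have hs : (Wt b c).slope c 0 (b - c) 0 = d - 1 := by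
    rw [slope_of_X_ne hc, hd]
    field_simp
    ring
  have e1 : (Wt b c).addX c 0 ((Wt b c).slope c 0 (b - c) 0) = d * (d - 1) := by
    rw [hs]
    show (d - 1) ^ 2 + (1 - c) * (d - 1) - (-b) - c - 0 = _
    rw [hd]
    ring
  have e2 : (Wt b c).addY c 0 (b - c) ((Wt b c).slope c 0 (b - c) 0) = d ^ 2 * (c + 1 - d) := by
    unfold WeierstrassCurve.Affine.addY WeierstrassCurve.Affine.negAddY
    rw [e1, hs, negY_wt, hd]
    ring
  have e4 : (4 : ℕ) • P0 c hb = .some _ _ (nonsingular_add h3 (ns0 hb) hxy) := by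
    rw [show (4 : ℕ) = 3 + 1 by norm_num, add_nsmul, one_nsmul, e3]
    exact Point.add_some hxy
  have hns := nonsingular_add h3 (ns0 hb) hxy
  rw [e1, e2] at hns
  refine ⟨hns, ?_⟩
  rw [e4]
  simp only [Point.some.injEq]
  exact ⟨e1, e2⟩

/-- order four -/
lemma c_of_four (hb : b ≠ 0) (h : (4 : ℕ) • P0 c hb = 0) : c = 0 := by
  obtain ⟨h2, e2⟩ := two_P0 (c := c) hb
  have e : (2 : ℕ) • P0 c hb = -((2 : ℕ) • P0 c hb) := by
    rw [eq_neg_iff_add_eq_zero, ← add_nsmul]; exact h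
  rw [e2, Point.neg_some] at e
  simp only [Point.some.injEq, true_and] at e
  rw [negY_wt] at e
  have : b * c = 0 := by linear_combination e
  exact (mul_eq_zero.mp this).resolve_left hb

/-- order five -/
lemma c_of_five (hb : b ≠ 0) (h : (5 : ℕ) • P0 c hb = 0) : c = b := by
  obtain ⟨h2, e2⟩ := two_P0 (c := c) hb
  obtain ⟨h3, e3⟩ := three_P0 (c := c) hb
  have e : (3 : ℕ) • P0 c hb = -((2 : ℕ) • P0 c hb) := by
    rw [eq_neg_iff_add_eq_zero, ← add_nsmul]; exact h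
  rw [e3, e2, Point.neg_some] at e
  simp only [Point.some.injEq] at e
  exact e.1

/-- order six -/
lemma b_of_six (hb : b ≠ 0) (h : (6 : ℕ) • P0 c hb = 0) : b = c + c ^ 2 := by
  obtain ⟨h3, e3⟩ := three_P0 (c := c) hb
  have e : (3 : ℕ) • P0 c hb = -((3 : ℕ) • P0 c hb) := by
    rw [eq_neg_iff_add_eq_zero, ← add_nsmul]; exact h
  rw [e3, Point.neg_some] at e
  simp only [Point.some.injEq, true_and] at e
  rw [negY_wt] at e
  linear_combination e

/-- order seven -/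
lemma bc_of_seven (hb : b ≠ 0) (h : (7 : ℕ) • P0 c hb = 0) :
    ∃ d : k, d ≠ 0 ∧ d ≠ 1 ∧ c = d * (d - 1) ∧ b = d ^ 2 * (d - 1) := by
  have hc : c ≠ 0 := by
    rintro rfl
    -- then `3 P = ± P`
    obtain ⟨h3, e3⟩ := three_P0 (c := (0 : k)) hb
    have e1 : -P0 0 hb = .some 0 b ((nonsingular_neg _ _).mpr (ns0 hb) |> fun h => by
        rwa [negY_wt, show -(0 : k) - (1 - 0) * 0 + b = b by ring] at h) := by
      show -(Point.some 0 0 (ns0 hb)) = _
      rw [Point.neg_some]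
      simp only [Point.some.injEq, true_and]
      rw [negY_wt]; ring
    have e2 : (3 : ℕ) • P0 0 hb = -P0 0 hb := by
      rw [e3, e1]
      simp only [Point.some.injEq, true_and]
      ring
    have e4 : (4 : ℕ) • P0 0 hb = 0 := by
      rw [show (4 : ℕ) = 3 + 1 by norm_num, add_nsmul, one_nsmul, e2]
      exact neg_add_cancel _
    have e5 : P0 0 hb = 0 := by
      have h8 : (8 : ℕ) • P0 0 hb = 0 := by
        rw [show (8 : ℕ) = 4 + 4 by norm_num, add_nsmul, e4, add_zero]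
      rw [show (8 : ℕ) = 7 + 1 by norm_num, add_nsmul, h, zero_add, one_nsmul] at h8
      exact h8
    exact Point.some_ne_zero _ e5
  obtain ⟨d, hd⟩ : ∃ d : k, b = d * c := ⟨b / c, by field_simp⟩
  obtain ⟨h3, e3⟩ := three_P0 (c := c) hb
  obtain ⟨h4, e4⟩ := four_P0 hb hc hd
  have e : (4 : ℕ) • P0 c hb = -((3 : ℕ) • P0 c hb) := by
    rw [eq_neg_iff_add_eq_zero, ← add_nsmul]; exact h
  rw [e3, e4, Point.neg_some] at e
  simp only [Point.some.injEq] at e
  have e1 : c = d * (d - 1) := e.1.symm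
  refine ⟨d, ?_, ?_, e1, ?_⟩
  · rintro rfl
    apply hc
    rw [e1]; ring
  · rintro rfl
    apply hc
    rw [e1]; ring
  · rw [hd]
    nth_rewrite 1 [e1]
    ring

end Pool.Agent.UEG
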