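import Pool.Agent.Lib_helper76.UEG.C

/-!
# Functions supported on a group of points

`H` is a subgroup of the group of points of a Weierstrass curve over `k`.  The functions which are
regular and invertible outside of `H` are the products of constants, of the `x - x(Q)` and of the
equations of lines through two points of `H`.
-/

set_option autoImplicit false
set_option linter.unusedSectionVars false

namespace Pool.Agent.UEG

open Polynomial WeierstrassCurve.Affine

variable {k : Type*} [Field k] {W : WeierstrassCurve.Affine k}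

/-- the polynomials in `x` -/
noncomputable def iP : k[X] →+* W.CoordinateRing := (CoordinateRing.mk W).comp C

/-- the norm -/
noncomputable def Nm (r : W.CoordinateRing) : k[X] := Algebra.norm k[X] r

lemma Nm_mul (r s : W.CoordinateRing) : Nm (r * s) = Nm r * Nm s := map_mul _ _ _

lemma pq (p q : k[X]) : p • (1 : W.CoordinateRing) + q • CoordinateRing.mk W X =
    iP p + iP q * yR := basis_eq p q

lemma Nm_pq (p q : k[X]) : Nm (iP p + iP q * yR : W.CoordinateRing) =
    p ^ 2 - p * q * (C W.a₁ * X + C W.a₃) -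
      q ^ 2 * (X ^ 3 + C W.a₂ * X ^ 2 + C W.a₄ * X + C W.a₆) := by
  rw [← pq]; exact CoordinateRing.norm_smul_basis p q

lemma Nm_iP (p : k[X]) : Nm (iP p : W.CoordinateRing) = p ^ 2 := by
  have := Nm_pq (W := W) p 0
  rw [map_zero, zero_mul, add_zero] at this
  rw [this]; ring

lemma Nm_deg (p q : k[X]) : (Nm (iP p + iP q * yR : W.CoordinateRing)).degree =
    max (2 • p.degree) (2 • q.degree + 3) := by
  rw [← pq]; exact CoordinateRing.degree_norm_smul_basis p q

lemma exists_pq (r : W.CoordinateRing) : ∃ p q : k[X], r = iP p + iP q * yR := by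
  obtain ⟨p, q, rfl⟩ := CoordinateRing.exists_smul_basis_eq r
  exact ⟨p, q, pq p q⟩

lemma yR_sq : (yR : W.CoordinateRing) ^ 2 = iP (X ^ 3 + C W.a₂ * X ^ 2 + C W.a₄ * X + C W.a₆) -
    iP (C W.a₁ * X + C W.a₃) * yR := by
  have h := eqR (W := W)
  have e1 : ∀ c : k, (cR c : W.CoordinateRing) = iP (C c) := fun c => rfl
  have e2 : (xR : W.CoordinateRing) = iP X := rfl
  rw [e1, e1, e1, e1, e1, e2] at h
  simp only [map_add, map_mul, map_pow]
  linear_combination h

lemma iP_injective : Function.Injective (iP (W := W)) := by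
  rw [injective_iff_map_eq_zero]
  intro p hp
  have h1 : p • (1 : W.CoordinateRing) + (0 : k[X]) • CoordinateRing.mk W X = 0 := by
    rw [pq, map_zero, zero_mul, add_zero, hp]
  exact (CoordinateRing.smul_basis_eq_zero h1).1

lemma Nm_ne_zero {r : W.CoordinateRing} (hr : r ≠ 0) : Nm r ≠ 0 := by
  intro h
  apply hr
  apply D_eq_bot.mp
  unfold D
  have : Algebra.norm k[X] r = 0 := h
  rw [this, degree_zero]

section step

variable [DecidableEq k]

/-- the line through two points -/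
noncomputable def ln (W : WeierstrassCurve.Affine k) (x₁ x₂ y₁ y₂ : k) : k[X] :=
  linePolynomial x₁ y₁ (W.slope x₁ x₂ y₁ y₂)

/-- the abscissa of the sum of two points -/
noncomputable def ax (W : WeierstrassCurve.Affine k) (x₁ x₂ y₁ y₂ : k) : k :=
  W.addX x₁ x₂ (W.slope x₁ x₂ y₁ y₂)

lemma ln_eq {x₁ y₁ x₂ y₂ : k} (h₁ : W.Equation x₁ y₁) (h₂ : W.Equation x₂ y₂)
    (hxy : ¬(x₁ = x₂ ∧ y₁ = W.negY x₂ y₂)) :
    (ln W x₁ x₂ y₁ y₂) ^ 2 + (C W.a₁ * X + C W.a₃) * ln W x₁ x₂ y₁ y₂ -
      (X ^ 3 + C W.a₂ * X ^ 2 + C W.a₄ * X + C W.a₆) =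
      -((X - C x₁) * (X - C x₂) * (X - C (ax W x₁ x₂ y₁ y₂))) := by
  have h := addPolynomial_slope h₁ h₂ hxy
  have e : W.addPolynomial x₁ y₁ (W.slope x₁ x₂ y₁ y₂) =
      (ln W x₁ x₂ y₁ y₂) ^ 2 + (C W.a₁ * X + C W.a₃) * ln W x₁ x₂ y₁ y₂ -
      (X ^ 3 + C W.a₂ * X ^ 2 + C W.a₄ * X + C W.a₆) := by
    unfold WeierstrassCurve.Affine.addPolynomial ln WeierstrassCurve.Affine.polynomial
    simp only [eval_sub, eval_add, eval_mul, eval_pow, eval_X, eval_C]
  rw [← e, h]
  rfl

lemma Nm_line {x₁ y₁ x₂ y₂ : k} (h₁ : W.Equation x₁ y₁) (h₂ : W.Equation x₂ y₂)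
    (hxy : ¬(x₁ = x₂ ∧ y₁ = W.negY x₂ y₂)) :
    Nm (yR - iP (ln W x₁ x₂ y₁ y₂) : W.CoordinateRing) =
      -((X - C x₁) * (X - C x₂) * (X - C (ax W x₁ x₂ y₁ y₂))) := by
  have e : (yR - iP (ln W x₁ x₂ y₁ y₂) : W.CoordinateRing) =
      iP (-ln W x₁ x₂ y₁ y₂) + iP 1 * yR := by
    rw [map_neg, map_one]; ring
  rw [e, Nm_pq, ← ln_eq h₁ h₂ hxy]
  ring

/-- division by a line -/
theorem step {x₁ y₁ x₂ y₂ : k} (h₁ : W.Equation x₁ y₁) (h₂ : W.Equation x₂ y₂)
    (hxy : ¬(x₁ = x₂ ∧ y₁ = W.negY x₂ y₂)) {p q : k[X]}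
    (hG : (X - C x₁) * (X - C x₂) ∣ p + q * ln W x₁ x₂ y₁ y₂) :
    ∃ r' : W.CoordinateRing, iP (X - C (ax W x₁ x₂ y₁ y₂)) * (iP p + iP q * yR) =
        (yR - iP (ln W x₁ x₂ y₁ y₂)) * r' ∧
      Nm r' * ((X - C x₁) * (X - C x₂)) =
        -(Nm (iP p + iP q * yR : W.CoordinateRing) * (X - C (ax W x₁ x₂ y₁ y₂))) := by
  obtain ⟨g, hg⟩ := hG
  set ℓ := ln W x₁ x₂ y₁ y₂ with hℓ
  set x₃ := ax W x₁ x₂ y₁ y₂ with hx₃
  have hc := ln_eq h₁ h₂ hxy
  rw [← hℓ, ← hx₃] at hc
  have e1 : iP (X - C x₃) * (iP p + iP q * yR : W.CoordinateRing) =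
      (yR - iP ℓ) * (iP (q * (X - C x₃) + g * (C W.a₁ * X + C W.a₃ + ℓ)) + iP g * yR) := by
    have hy := yR_sq (W := W)
    have hc' := congrArg (iP (W := W)) hc
    have hg' := congrArg (iP (W := W)) hg
    simp only [map_add, map_mul, map_sub, map_pow, map_neg] at hy hc' hg' ⊢
    linear_combination (iP X - iP (C x₃)) * hg' - iP g * hy + iP g * hc'
  refine ⟨_, e1, ?_⟩
  have h3 : (X - C x₃ : k[X]) ≠ 0 := X_sub_C_ne_zero _
  apply mul_left_cancel₀ h3
  have e2 := congrArg Nm e1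
  rw [Nm_mul, Nm_mul, Nm_iP, Nm_line h₁ h₂ hxy, ← hx₃] at e2
  linear_combination e2

end step

/-! ### functions supported on a subgroup -/

section main

variable [DecidableEq k] (H : AddSubgroup W.Point)

/-- the point `(a, b)` is in `H` -/
def inH (a b : k) : Prop := ∃ h : W.Nonsingular a b, Point.some a b h ∈ H

variable {H}

lemma inH.neg {a b : k} (h : inH H a b) : inH H a (W.negY a b) := by
  obtain ⟨h1, h2⟩ := h
  refine ⟨(nonsingular_neg a b).mpr h1, ?_⟩
  have := H.neg_mem h2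
  rwa [Point.neg_some] at this

lemma inH.add {a b a' b' : k} (h : inH H a b) (h' : inH H a' b')
    (hxy : ¬(a = a' ∧ b = W.negY a' b')) : ∃ c, inH H (ax W a a' b b') c := by
  obtain ⟨h1, h2⟩ := h
  obtain ⟨h1', h2'⟩ := h'
  have := H.add_mem h2 h2'
  rw [Point.add_some hxy] at this
  exact ⟨_, _, this⟩

lemma inH.eqn {a b : k} (h : inH H a b) : W.Equation a b := h.1.1

/-- a zero of the norm is the abscissa of a zero of the function -/
lemma exists_zero {a b : k} (hb : inH H a b) {p q : k[X]}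
    (h : (Nm (iP p + iP q * yR : W.CoordinateRing)).eval a = 0) :
    ∃ b', inH H a b' ∧ p.eval a + q.eval a * b' = 0 := by
  have he := (equation_iff a b).mp hb.eqn
  have e : (p.eval a + q.eval a * b) * (p.eval a + q.eval a * W.negY a b) = 0 := by
    rw [← h, Nm_pq]
    simp only [eval_sub, eval_add, eval_mul, eval_pow, eval_X, eval_C, negY]
    linear_combination (-(q.eval a) ^ 2) * he
  rcases mul_eq_zero.mp e with h1 | h1
  · exact ⟨b, hb, h1⟩
  · exact ⟨_, hb.neg, h1⟩

/-- a double zero at a point of order two -/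
lemma two_torsion {a b : k} (hb : inH H a b) (h2 : b = W.negY a b) {p q : k[X]}
    (h0 : p.eval a + q.eval a * b = 0)
    (h : (X - C a) ^ 2 ∣ Nm (iP p + iP q * yR : W.CoordinateRing)) :
    p.eval a = 0 ∧ q.eval a = 0 := by
  have he := (equation_iff a b).mp hb.eqn
  rw [negY] at h2
  -- `p + q b`
  obtain ⟨p1, hp1⟩ : X - C a ∣ p + q * C b := by
    rw [dvd_iff_isRoot, IsRoot.def]; simpa using h0
  obtain ⟨m, hm⟩ : X - C a ∣ X ^ 3 + C W.a₂ * X ^ 2 + C W.a₄ * X + C W.a₆ -
      C b ^ 2 - C b * (C W.a₁ * X + C W.a₃) := by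
    rw [dvd_iff_isRoot, IsRoot.def]
    simp only [eval_sub, eval_add, eval_mul, eval_pow, eval_X, eval_C]
    linear_combination -he
  have hm' : m.eval a = 3 * a ^ 2 + 2 * W.a₂ * a + W.a₄ - b * W.a₁ := by
    have := congrArg (fun f => (derivative f).eval a) hm
    simp [derivative_pow] at this
    linear_combination -this
  have hne : m.eval a ≠ 0 := by
    rw [hm']
    have hn := (nonsingular_iff a b).mp hb.1
    rcases hn.2 with h3 | h3
    · intro h4; apply h3; linear_combination -h4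
    · exact absurd h2 h3
  have e : Nm (iP p + iP q * yR : W.CoordinateRing) =
      (X - C a) ^ 2 * (p1 ^ 2 - p1 * q * C W.a₁) - (X - C a) * (q ^ 2 * m) := by
    rw [Nm_pq]
    have hA : (C W.a₁ * X + C W.a₃ + 2 * C b : k[X]) = C W.a₁ * (X - C a) := by
      have : W.a₁ * a + W.a₃ + 2 * b = 0 := by linear_combination h2
      have h5 := congrArg C this
      simp only [map_add, map_mul, map_zero, C_ofNat] at h5
      linear_combination h5
    linear_combination (-(p + q * C b) - (X - C a) * p1 + (C W.a₁ * X + C W.a₃ + 2 * C b) * q) *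
      (-1 : k[X]) * hp1 - (X - C a) * p1 * q * hA - q ^ 2 * hm
  rw [e] at h
  have h3 : (X - C a) ^ 2 ∣ (X - C a) * (q ^ 2 * m) := by
    have := dvd_sub (Dvd.intro (p1 ^ 2 - p1 * q * C W.a₁) rfl :
      (X - C a) ^ 2 ∣ (X - C a) ^ 2 * (p1 ^ 2 - p1 * q * C W.a₁)) h
    rwa [sub_sub_cancel] at this
  have h4 : X - C a ∣ q ^ 2 * m := by
    rw [pow_two] at h3
    exact (mul_dvd_mul_iff_left (X_sub_C_ne_zero a)).mp h3
  rw [dvd_iff_isRoot, IsRoot.def, eval_mul, eval_pow] at h4
  have h5 : q.eval a = 0 := by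
    rcases mul_eq_zero.mp h4 with h6 | h6
    · exact pow_eq_zero_iff (two_ne_zero) |>.mp h6
    · exact absurd h6 hne
  refine ⟨?_, h5⟩
  rw [h5, zero_mul, add_zero] at h0
  exact h0

/-- a double zero at a point which is not of order two -/
lemma tangent {a b : k} (hb : inH H a b) (h2 : b ≠ W.negY a b) {p q : k[X]}
    (h0 : p.eval a + q.eval a * b = 0) (hq : q.eval a ≠ 0)
    (h : (X - C a) ^ 2 ∣ Nm (iP p + iP q * yR : W.CoordinateRing)) :
    (X - C a) ^ 2 ∣ p + q * ln W a a b b := by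
  have hxy : ¬(a = a ∧ b = W.negY a b) := fun h' => h2 h'.2
  have hc := ln_eq hb.eqn hb.eqn hxy
  set ℓ := ln W a a b b with hℓ
  have hℓa : ℓ.eval a = b := by
    rw [hℓ]; unfold ln linePolynomial; simp
  have e : Nm (iP p + iP q * yR : W.CoordinateRing) =
      (p + q * ℓ) * (p + q * ℓ - q * (C W.a₁ * X + C W.a₃ + 2 * ℓ)) -
        q ^ 2 * ((X - C a) ^ 2 * (X - C (ax W a a b b))) := by
    rw [Nm_pq]
    linear_combination (q ^ 2) * hc
  have h3 : (X - C a) ^ 2 ∣
      (p + q * ℓ) * (p + q * ℓ - q * (C W.a₁ * X + C W.a₃ + 2 * ℓ)) := by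
    have h4 : (X - C a) ^ 2 ∣ q ^ 2 * ((X - C a) ^ 2 * (X - C (ax W a a b b))) :=
      ⟨q ^ 2 * (X - C (ax W a a b b)), by ring⟩
    have := dvd_add h h4
    rwa [e, sub_add_cancel] at this
  have hcop : IsCoprime ((X - C a) ^ 2)
      (p + q * ℓ - q * (C W.a₁ * X + C W.a₃ + 2 * ℓ)) := by
    apply IsCoprime.pow_left
    rw [(irreducible_X_sub_C a).coprime_iff_not_dvd, dvd_iff_isRoot, IsRoot.def]
    intro h4
    simp only [eval_sub, eval_add, eval_mul, eval_X, eval_C, hℓa, eval_ofNat] at h4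
    have h5 : q.eval a * (b - W.negY a b) = 0 := by
      rw [negY]; linear_combination h0 - h4
    rcases mul_eq_zero.mp h5 with h6 | h6
    · exact hq h6
    · exact h2 (by linear_combination h6)
  exact hcop.dvd_of_dvd_mul_right h3

/-- the predicates on functions which hold for constants, for the `x - x(Q)`, for the lines and
which are closed under products and inverses -/
structure Good (H : AddSubgroup W.Point) {F : Type*} [Field F] (i : W.CoordinateRing →+* F)
    (P : F → Prop) : Prop where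
  hc : ∀ c : k, c ≠ 0 → P (i (cR c))
  hm : ∀ f g, P f → P g → P (f * g)
  hi : ∀ f, P f → P f⁻¹
  hx : ∀ a b, inH H a b → P (i (iP (X - C a)))
  hl : ∀ a b a' b', inH H a b → inH H a' b' → ¬(a = a' ∧ b = W.negY a' b') →
    P (i (yR - iP (ln W a a' b b')))

lemma ln_right {a b a' b' : k} (h : a ≠ a') : (ln W a a' b b').eval a' = b' := by
  unfold ln linePolynomial
  rw [slope_of_X_ne h]
  have : a - a' ≠ 0 := sub_ne_zero.mpr h
  simp only [eval_add, eval_mul, eval_sub, eval_X, eval_C]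
  field_simp
  ring

lemma ln_left {a b a' b' : k} : (ln W a a' b b').eval a = b := by
  unfold ln linePolynomial
  simp

lemma deg_q {p q : k[X]} (hq : q ≠ 0) :
    2 * q.natDegree + 3 ≤ (Nm (iP p + iP q * yR : W.CoordinateRing)).natDegree := by
  apply le_natDegree_of_coe_le_degree
  rw [Nm_deg, degree_eq_natDegree hq]
  apply le_max_of_le_right
  rw [two_nsmul]
  push_cast
  rw [two_mul]

lemma deg_p {p q : k[X]} (hp : p ≠ 0) :
    2 * p.natDegree ≤ (Nm (iP p + iP q * yR : W.CoordinateRing)).natDegree := by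
  apply le_natDegree_of_coe_le_degree
  rw [Nm_deg, degree_eq_natDegree hp]
  apply le_max_of_le_left
  rw [two_nsmul]
  push_cast
  rw [two_mul]

/-- **the induction**: functions whose norm is a product of the `X - x(Q)` -/
theorem ind {F : Type*} [Field F] {i : W.CoordinateRing →+* F} (hi : Function.Injective i)
    {P : F → Prop} (hP : Good H i P) : ∀ (n : ℕ) (M : Multiset k), M.card = n →
    (∀ a ∈ M, ∃ b, inH H a b) → ∀ (r : W.CoordinateRing) (c : k), c ≠ 0 →
    Nm r = C c * (M.map (fun a => X - C a)).prod → P (i r) := by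
  intro n
  induction n using Nat.strong_induction_on with
  | _ n ih =>
  intro M hn hM r c hc h
  obtain ⟨p, q, rfl⟩ := exists_pq r
  have hprod : ∀ M : Multiset k, ((M.map (fun a => X - C a)).prod : k[X]) ≠ 0 := by
    intro M
    rw [Ne, Multiset.prod_eq_zero_iff, Multiset.mem_map]
    rintro ⟨a, -, ha⟩
    exact X_sub_C_ne_zero a ha
  have hCc : (C c : k[X]) ≠ 0 := C_ne_zero.mpr hc
  have hdeg : (Nm (iP p + iP q * yR : W.CoordinateRing)).natDegree = n := by
    rw [h, natDegree_C_mul hc, natDegree_multiset_prod_X_sub_C_eq_card, hn]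
  rcases Nat.lt_or_ge n 2 with hlt | hge
  · -- small degrees
    have hq : q = 0 := by
      by_contra hq
      have := deg_q (W := W) (p := p) hq
      omega
    subst hq
    have hp0 : p ≠ 0 := by
      rintro rfl
      rw [Nm_pq] at h
      exact (mul_ne_zero hCc (hprod M)) (by rw [← h]; ring)
    have hp : p.natDegree = 0 := by
      have := deg_p (W := W) (q := 0) hp0
      omega
    rw [map_zero, zero_mul, add_zero, eq_C_of_natDegree_eq_zero hp]
    apply hP.hc
    intro h0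
    apply hp0
    rw [eq_C_of_natDegree_eq_zero hp, h0, C_0]
  obtain ⟨m, rfl⟩ := Nat.exists_eq_add_of_le' hge
  obtain ⟨a, M1, rfl, hn1⟩ : ∃ a M1, a ::ₘ M1 = M ∧ M1.card = m + 1 := by
    obtain ⟨a, M1, h1, h2⟩ := Multiset.card_eq_succ_iff.mp hn
    exact ⟨a, M1, h1, h2⟩
  obtain ⟨a', M2, rfl, hn2⟩ : ∃ a M2, a ::ₘ M2 = M1 ∧ M2.card = m := by
    obtain ⟨a, M2, h1, h2⟩ := Multiset.card_eq_succ_iff.mp hn1
    exact ⟨a, M2, h1, h2⟩
  rw [Multiset.map_cons, Multiset.prod_cons, Multiset.map_cons, Multiset.prod_cons] at h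
  have hM2 : ∀ z ∈ M2, ∃ b, inH H z b := fun z hz =>
    hM z (Multiset.mem_cons_of_mem (Multiset.mem_cons_of_mem hz))
  obtain ⟨b0, hb0⟩ := hM a (Multiset.mem_cons_self _ _)
  obtain ⟨b0', hb0'⟩ := hM a' (Multiset.mem_cons_of_mem (Multiset.mem_cons_self _ _))
  obtain ⟨b, hb, hz⟩ := exists_zero (p := p) (q := q) hb0 (by rw [h]; simp)
  obtain ⟨b', hb', hz'⟩ := exists_zero (p := p) (q := q) hb0' (by rw [h]; simp)
  -- the step
  have hstep : ∀ {a a' b b' : k}, inH H a b → inH H a' b' → ¬(a = a' ∧ b = W.negY a' b') →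
      Nm (iP p + iP q * yR : W.CoordinateRing) =
        C c * ((X - C a) * ((X - C a') * (M2.map (fun a => X - C a)).prod)) →
      (X - C a) * (X - C a') ∣ p + q * ln W a a' b b' → P (i (iP p + iP q * yR)) := by
    intro a a' b b' hb hb' hxy h hG
    obtain ⟨r', hr', hN⟩ := step hb.eqn hb'.eqn hxy hG
    obtain ⟨y3, hy3⟩ := hb.add hb' hxy
    have h3 : Nm r' = C (-c) * (((ax W a a' b b') ::ₘ M2).map (fun a => X - C a)).prod := by
      rw [Multiset.map_cons, Multiset.prod_cons]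
      apply mul_right_cancel₀ (mul_ne_zero (X_sub_C_ne_zero a) (X_sub_C_ne_zero a'))
      rw [hN, h, C_neg]
      ring
    have h4 := ih (m + 1) (by omega) (ax W a a' b b' ::ₘ M2) (by rw [Multiset.card_cons, hn2])
      (by
        intro z hz
        rcases Multiset.mem_cons.mp hz with rfl | hz
        · exact ⟨y3, hy3⟩
        · exact hM2 z hz) r' (-c) (neg_ne_zero.mpr hc) h3
    have hx3 : i (iP (X - C (ax W a a' b b'))) ≠ 0 := by
      intro h0
      exact X_sub_C_ne_zero _ (iP_injective (hi (h0.trans (map_zero i).symm) |>.trans (map_zero iP).symm))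
    have e : i (iP p + iP q * yR) = i (yR - iP (ln W a a' b b')) * i r' *
        (i (iP (X - C (ax W a a' b b'))))⁻¹ := by
      rw [← map_mul, ← hr', map_mul]
      field_simp
    rw [e]
    exact hP.hm _ _ (hP.hm _ _ (hP.hl _ _ _ _ hb hb' hxy) h4) (hP.hi _ (hP.hx _ _ hy3))
  rcases eq_or_ne a a' with rfl | haa
  · -- the same abscissa
    rcases eq_or_ne (q.eval a) 0 with hq | hq
    · have hp : p.eval a = 0 := by rw [hq, zero_mul, add_zero] at hz; exact hz
      obtain ⟨p1, rfl⟩ := dvd_iff_isRoot.mpr hp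
      obtain ⟨q1, rfl⟩ := dvd_iff_isRoot.mpr hq
      have e : (iP ((X - C a) * p1) + iP ((X - C a) * q1) * yR : W.CoordinateRing) =
          iP (X - C a) * (iP p1 + iP q1 * yR) := by
        rw [map_mul, map_mul]; ring
      rw [e] at h ⊢
      rw [map_mul]
      rw [Nm_mul, Nm_iP] at h
      refine hP.hm _ _ (hP.hx _ _ hb) (ih m (by omega) M2 hn2 hM2 _ c hc ?_)
      apply mul_left_cancel₀ (pow_ne_zero 2 (X_sub_C_ne_zero a))
      rw [h]; ring
    · have hdvd : (X - C a) ^ 2 ∣ Nm (iP p + iP q * yR : W.CoordinateRing) :=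
        ⟨C c * (M2.map (fun a => X - C a)).prod, by rw [h]; ring⟩
      rcases eq_or_ne b (W.negY a b) with h2 | h2
      · exact absurd (two_torsion hb h2 hz hdvd).2 hq
      · refine hstep hb hb (fun h' => h2 h'.2) h ?_
        have := tangent hb h2 hz hq hdvd
        rwa [pow_two] at this
  · refine hstep hb hb' (fun h' => haa h'.1) h ?_
    apply IsCoprime.mul_dvd (isCoprime_X_sub_C_of_isUnit_sub (sub_ne_zero.mpr haa).isUnit)
    · rw [dvd_iff_isRoot, IsRoot.def, eval_add, eval_mul, ln_left]; exact hz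
    · rw [dvd_iff_isRoot, IsRoot.def, eval_add, eval_mul, ln_right haa]; exact hz'

end main

end Pool.Agent.UEG
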