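import Pool.Agent.Lib_helper76.UEG.U

/-!
# The units of the ring of functions which are regular outside of a group of points
-/

set_option autoImplicit false
set_option linter.unusedSectionVars false

namespace Pool.Agent.UEG

open Polynomial WeierstrassCurve.Affine

variable {k : Type*} [Field k] {W : WeierstrassCurve.Affine k} [DecidableEq k]

lemma dvd_prod {f : k[X]} : ∀ {M : Multiset k}, f ∣ (M.map (fun a => X - C a)).prod →
    ∃ (c : k) (M' : Multiset k), c ≠ 0 ∧ M' ≤ M ∧ f = C c * (M'.map (fun a => X - C a)).prod := by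
  intro M
  induction M using Multiset.induction generalizing f with
  | empty =>
    intro h
    rw [Multiset.map_zero, Multiset.prod_zero] at h
    obtain ⟨c, hc, hc'⟩ := Polynomial.isUnit_iff.mp (isUnit_of_dvd_one h)
    refine ⟨c, 0, hc.ne_zero, le_rfl, ?_⟩
    rw [Multiset.map_zero, Multiset.prod_zero, mul_one, hc']
  | cons a M ih =>
    intro h
    rw [Multiset.map_cons, Multiset.prod_cons] at h
    by_cases ha : X - C a ∣ f
    · obtain ⟨f1, rfl⟩ := ha
      obtain ⟨c, M', hc, hM, rfl⟩ := ih ((mul_dvd_mul_iff_left (X_sub_C_ne_zero a)).mp h)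
      refine ⟨c, a ::ₘ M', hc, Multiset.cons_le_cons _ hM, ?_⟩
      rw [Multiset.map_cons, Multiset.prod_cons]
      ring
    · have hcop : IsCoprime f (X - C a) := by
        rw [isCoprime_comm, (irreducible_X_sub_C a).coprime_iff_not_dvd]
        exact ha
      obtain ⟨c, M', hc, hM, rfl⟩ := ih (hcop.dvd_of_dvd_mul_left h)
      exact ⟨c, M', hc, hM.trans (Multiset.le_cons_self _ _), rfl⟩

variable {F : Type*} [Field F] [Algebra k F] {x y : F} (H : AddSubgroup W.Point)

/-- the ring of the functions which are regular outside of `H` -/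
def RR (x y : F) : Subalgebra k F :=
  Algebra.adjoin k ({x, y} ∪ {z | ∃ a b, inH H a b ∧ z = (x - algebraMap k F a)⁻¹})

/-- the units of this ring -/
def IsUn (x y f : F) : Prop := f ≠ 0 ∧ f ∈ RR H x y ∧ f⁻¹ ∈ RR H x y

variable {H}

/-- the embedding -/
noncomputable def hR (h : Gen W x y) : W.CoordinateRing →+* F := homR (algebraMap k F) x y h.eq

lemma hR_inj (h : Gen W x y) : Function.Injective (hR h) :=
  homR_injective _ _ _ h.eq h.tr'

lemma hR_x (h : Gen W x y) : hR h xR = x := homR_x _ _ _ _

lemma hR_y (h : Gen W x y) : hR h yR = y := homR_y _ _ _ _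

lemma hR_c (h : Gen W x y) (c : k) : hR h (cR c) = algebraMap k F c := homR_c _ _ _ _ _

lemma hR_iP (h : Gen W x y) (p : k[X]) : hR h (iP p) = p.eval₂ (algebraMap k F) x :=
  homR_C _ _ _ _ _

lemma hR_sub (h : Gen W x y) (a : k) : hR h (iP (X - C a)) = x - algebraMap k F a := by
  rw [hR_iP, eval₂_sub, eval₂_X, eval₂_C]

/-- elements of the ring -/
lemma mem_RR (h : Gen W x y) {f : F} (hf : f ∈ RR H x y) :
    ∃ M : Multiset k, (∀ a ∈ M, ∃ b, inH H a b) ∧
      ∃ r : W.CoordinateRing, f * hR h (iP (M.map (fun a => X - C a)).prod) = hR h r := by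
  unfold RR at hf
  induction hf using Algebra.adjoin_induction with
  | mem u hu =>
    rcases hu with (rfl | rfl) | ⟨a, b, hab, rfl⟩
    · exact ⟨0, by simp, xR, by
        rw [Multiset.map_zero, Multiset.prod_zero, map_one, map_one, mul_one, hR_x]⟩
    · exact ⟨0, by simp, yR, by
        rw [Multiset.map_zero, Multiset.prod_zero, map_one, map_one, mul_one, hR_y]⟩
    · refine ⟨{a}, ?_, 1, ?_⟩
      · intro z hz
        rw [Multiset.mem_singleton] at hz
        exact ⟨b, by rw [hz]; exact hab⟩
      · rw [Multiset.map_singleton, Multiset.prod_singleton, map_one, hR_sub]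
        exact inv_mul_cancel₀ (h.x_sub_ne a)
  | algebraMap c =>
    exact ⟨0, by simp, cR c, by
      rw [Multiset.map_zero, Multiset.prod_zero, map_one, map_one, mul_one, hR_c]⟩
  | add u v _ _ hu hv =>
    obtain ⟨M, hM, r, hr⟩ := hu
    obtain ⟨M', hM', r', hr'⟩ := hv
    refine ⟨M + M', ?_, r * iP (M'.map (fun a => X - C a)).prod +
      r' * iP (M.map (fun a => X - C a)).prod, ?_⟩
    · intro z hz
      rcases Multiset.mem_add.mp hz with hz | hz
      · exact hM z hz
      · exact hM' z hz
    · rw [Multiset.map_add, Multiset.prod_add]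
      simp only [map_add, map_mul]
      rw [← hr, ← hr']
      ring
  | mul u v _ _ hu hv =>
    obtain ⟨M, hM, r, hr⟩ := hu
    obtain ⟨M', hM', r', hr'⟩ := hv
    refine ⟨M + M', ?_, r * r', ?_⟩
    · intro z hz
      rcases Multiset.mem_add.mp hz with hz | hz
      · exact hM z hz
      · exact hM' z hz
    · rw [Multiset.map_add, Multiset.prod_add]
      simp only [map_mul]
      rw [← hr, ← hr']
      ring

/-- **the units of the ring of functions which are regular outside of a group of points**: every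
predicate which holds for constants, the `x - x(Q)` and the lines, and which is closed under
products and inverses, holds for the units -/
theorem units_ind (h : Gen W x y) {P : F → Prop} (hP : Good H (hR h) P) {f : F}
    (hf : IsUn H x y f) : P f := by
  obtain ⟨hf0, h1, h2⟩ := hf
  obtain ⟨M, hM, r, hr⟩ := mem_RR h h1
  obtain ⟨M', hM', r', hr'⟩ := mem_RR h h2
  have hne : ∀ M : Multiset k, hR h (iP (M.map (fun a => X - C a)).prod) ≠ 0 := by
    intro M h0
    have h3 := iP_injective ((hR_inj h (h0.trans (map_zero _).symm)).trans (map_zero iP).symm)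
    rw [Multiset.prod_eq_zero_iff, Multiset.mem_map] at h3
    obtain ⟨a, -, ha⟩ := h3
    exact X_sub_C_ne_zero a ha
  have e1 : r * r' = iP (((M + M').map (fun a => X - C a)).prod) := by
    apply hR_inj h
    rw [map_mul, ← hr, ← hr', Multiset.map_add, Multiset.prod_add, map_mul, map_mul]
    field_simp
  have e2 := congrArg Nm e1
  rw [Nm_mul, Nm_iP] at e2
  have e3 : Nm r ∣ (((M + M') + (M + M')).map (fun a => X - C a)).prod := by
    rw [Multiset.map_add (fun a => X - C a) (M + M') (M + M'), Multiset.prod_add, ← pow_two, ← e2]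
    exact dvd_mul_right _ _
  obtain ⟨c, M'', hc, hM'', hN⟩ := dvd_prod e3
  have h4 : P (hR h r) := by
    refine ind (hR_inj h) hP _ M'' rfl ?_ r c hc hN
    intro z hz
    have hz2 := Multiset.mem_of_le hM'' hz
    rw [Multiset.mem_add, Multiset.mem_add] at hz2
    rcases hz2 with (hz2 | hz2) | (hz2 | hz2)
    · exact hM z hz2
    · exact hM' z hz2
    · exact hM z hz2
    · exact hM' z hz2
  have h5 : ∀ M : Multiset k, (∀ a ∈ M, ∃ b, inH H a b) →
      P (hR h (iP (M.map (fun a => X - C a)).prod)) := by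
    intro M hM
    induction M using Multiset.induction with
    | empty =>
      rw [Multiset.map_zero, Multiset.prod_zero, map_one]
      have := hP.hc 1 one_ne_zero
      rwa [map_one] at this
    | cons a M ih =>
      rw [Multiset.map_cons, Multiset.prod_cons, map_mul, map_mul]
      obtain ⟨b, hb⟩ := hM a (Multiset.mem_cons_self _ _)
      exact hP.hm _ _ (hP.hx a b hb) (ih fun z hz => hM z (Multiset.mem_cons_of_mem hz))
  have e4 : f = hR h r * (hR h (iP (M.map (fun a => X - C a)).prod))⁻¹ := by
    rw [← hr, mul_assoc, mul_inv_cancel₀ (hne M), mul_one]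
  rw [e4]
  exact hP.hm _ _ h4 (hP.hi _ (h5 M hM))

/-- the units form such a predicate -/
theorem good_IsUn (h : Gen W x y) : Good H (hR h) (IsUn H x y) := by
  have mx : x ∈ RR H x y := Algebra.subset_adjoin (Or.inl (Or.inl rfl))
  have my : y ∈ RR H x y := Algebra.subset_adjoin (Or.inl (Or.inr rfl))
  have mi : ∀ {a b : k}, inH H a b → (x - algebraMap k F a)⁻¹ ∈ RR H x y := fun hab =>
    Algebra.subset_adjoin (Or.inr ⟨_, _, hab, rfl⟩)
  have mp : ∀ p : k[X], hR h (iP p) ∈ RR H x y := by
    intro p
    rw [hR_iP]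
    have : p.eval₂ (algebraMap k F) x = aeval x p := rfl
    rw [this]
    exact Algebra.adjoin_le (S := RR H x y) (by
      intro z hz
      rw [Set.mem_singleton_iff.mp hz]
      exact mx) (aeval_mem_adjoin_singleton k x)
  refine ⟨?_, ?_, ?_, ?_, ?_⟩
  · intro c hc
    rw [hR_c]
    refine ⟨(_root_.map_ne_zero _).mpr hc, Subalgebra.algebraMap_mem _ c, ?_⟩
    rw [← map_inv₀]
    exact Subalgebra.algebraMap_mem _ _
  · rintro f g ⟨h1, h2, h3⟩ ⟨h4, h5, h6⟩
    exact ⟨mul_ne_zero h1 h4, mul_mem h2 h5, by rw [mul_inv]; exact mul_mem h3 h6⟩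
  · rintro f ⟨h1, h2, h3⟩
    exact ⟨inv_ne_zero h1, h3, by rw [inv_inv]; exact h2⟩
  · intro a b hab
    rw [hR_sub]
    exact ⟨h.x_sub_ne a, sub_mem mx (Subalgebra.algebraMap_mem _ a), mi hab⟩
  · intro a b a' b' hab hab' hxy
    obtain ⟨c, hc⟩ := hab.add hab' hxy
    have hln := ln_eq hab.eqn hab'.eqn hxy
    have e1 : (yR - iP (ln W a a' b b')) * (yR + iP (C W.a₁ * X + C W.a₃ + ln W a a' b b')) =
        (iP ((X - C a) * (X - C a') * (X - C (ax W a a' b b'))) : W.CoordinateRing) := by
      have hy := yR_sq (W := W)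
      have hc' := congrArg (iP (W := W)) hln
      simp only [map_add, map_mul, map_sub, map_pow, map_neg] at hy hc' ⊢
      linear_combination hy - hc'
    have e2 := congrArg (hR h) e1
    simp only [map_mul, hR_sub] at e2
    have hne : (x - algebraMap k F a) * (x - algebraMap k F a') *
        (x - algebraMap k F (ax W a a' b b')) ≠ 0 :=
      mul_ne_zero (mul_ne_zero (h.x_sub_ne _) (h.x_sub_ne _)) (h.x_sub_ne _)
    have hne1 : hR h (yR - iP (ln W a a' b b')) ≠ 0 := by
      intro h0
      rw [h0, zero_mul] at e2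
      exact hne e2.symm
    refine ⟨hne1, ?_, ?_⟩
    · rw [map_sub, hR_y]
      exact sub_mem my (mp _)
    · have e3 : (hR h (yR - iP (ln W a a' b b')))⁻¹ =
          hR h (yR + iP (C W.a₁ * X + C W.a₃ + ln W a a' b b')) *
            ((x - algebraMap k F a)⁻¹ * (x - algebraMap k F a')⁻¹ *
              (x - algebraMap k F (ax W a a' b b'))⁻¹) := by
        rw [← mul_inv, ← mul_inv, ← e2, mul_inv]
        rw [mul_comm (hR h (yR - iP (ln W a a' b b')))⁻¹, ← mul_assoc, mul_inv_cancel₀, one_mul]
        intro h0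
        rw [h0, mul_zero] at e2
        exact hne e2.symm
      rw [e3]
      refine mul_mem ?_ (mul_mem (mul_mem (mi hab) (mi hab')) (mi hc))
      rw [map_add, hR_y]
      exact add_mem my (mp _)

end Pool.Agent.UEG
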